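import Pool.Agent.H299.RDE.Bdd

set_option linter.all false
set_option maxRecDepth 100000

namespace Pool.Agent.H299.RDE.B05

open Pool.Agent.H299.RDE

def z : Tree := .leaf []

def c3_14 : BCert := ⟨3, 14, 7, 10,
  .node false 7 (.node true 6 z (.leaf [137216, 269313, 138250, 138258, 137227, 262149]) (.leaf [137216, 269313, 138250, 138266, 137235, 262149]) (.node true 4 z (.leaf [135176, 138241, 138266, 135179, 131077]) (.leaf [135176, 137216, 269313, 138250, 138266, 135187, 137243, 131116, 131077]) (.leaf [135176, 137216, 269313, 138250, 138266, 135195, 137243, 131124, 131077]) z) z) (.leaf [138249, 138250, 131077]) z z z⟩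

def c3_17 : BCert := ⟨3, 17, 7, 9,
  .node false 7 (.leaf [138241, 138242, 131077]) (.node false 6 (.leaf [137217, 138249, 137218, 138242, 131077]) (.node false 5 (.leaf [136193, 137225, 138249, 136194, 137218, 138242, 131077]) (.node false 4 (.leaf [135169, 136201, 137225, 138249, 135170, 136194, 137218, 138242, 131077]) (.leaf [135177, 136201, 137225, 138249, 135170, 136194, 137218, 138274, 131077]) z z z) z z z) z z z) z z z⟩

def c3_26 : BCert := ⟨3, 26, 8, 10,
  .node false 8 (.node true 7 z (.leaf [138248, 139265, 139274, 138251, 131077]) z (.leaf [138240, 270337, 139274, 139298, 138267, 262149]) (.node true 4 z (.leaf [135176, 139265, 139298, 135179, 131077]) z (.leaf [135176, 138240, 270337, 139274, 139298, 135195, 138275, 131132, 131077]) (.leaf [135176, 138240, 270337, 139274, 139298, 135203, 138275, 131140, 131077]))) (.leaf [139273, 139274, 131077]) z z z⟩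

def c5_14 : BCert := ⟨5, 14, 6, 10,
  .node false 6 (.node true 4 z (.leaf [135168, 268289, 137234, 137242, 135179, 262149]) (.leaf [135184, 137217, 137234, 135187, 131077]) (.node true 5 z (.leaf [136192, 268289, 137226, 137234, 136203, 262149]) (.leaf [136192, 268289, 137226, 137242, 136211, 262149]) (.leaf [135184, 136192, 268289, 137226, 137234, 135195, 136219, 131116, 131077]) z) z) z (.leaf [137233, 137234, 131077]) z z⟩

def c5_22 : BCert := ⟨5, 22, 10, 10,
  .node false 10 (.node true 9 z (.leaf [140288, 272385, 141322, 141330, 140299, 262149]) (.leaf [140304, 141313, 141322, 140307, 131077]) z (.node true 8 z (.leaf [139264, 140304, 272385, 141322, 141330, 139275, 140323, 131116, 131077]) (.leaf [139264, 272385, 141330, 141346, 139283, 262149]) z (.node false 5 (.leaf [139264, 140288, 136193, 272385, 136202, 141322, 141330, 139299, 140323, 262149]) z (.leaf [140288, 136209, 141313, 136210, 141322, 140323, 131077]) z z))) z (.leaf [141329, 141330, 131077]) z z⟩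

def c6_25 : BCert := ⟨6, 25, 6, 7,
  .node false 6 z (.node false 5 z (.node false 4 z (.leaf [135177, 136201, 137225, 135170, 136194, 137242, 131077]) (.leaf [135185, 136201, 137225, 135170, 136218, 137218, 131077]) z z) (.leaf [136209, 137225, 136194, 137242, 131077]) z z) (.node false 4 z (.leaf [135177, 137233, 135170, 137242, 131077]) (.leaf [135185, 137233, 135170, 137250, 131077]) z z) z z⟩

def c7_4 : BCert := ⟨7, 4, 7, 9,
  .node false 7 (.leaf [136208, 138241, 138258, 136211, 131077]) (.node false 6 (.leaf [135184, 136208, 137217, 138249, 137234, 138258, 135187, 136211, 131077]) (.leaf [135184, 137225, 138249, 137234, 138258, 135187, 131077]) (.leaf [136208, 137233, 138249, 137234, 138258, 136211, 131077]) z z) (.leaf [138257, 138258, 131077]) z z⟩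

def c7_14 : BCert := ⟨7, 14, 7, 10,
  .node false 7 (.node true 4 z (.leaf [135176, 138241, 138266, 135179, 131077]) (.leaf [135184, 138241, 138266, 135187, 131077]) (.node true 5 z (.leaf [136192, 269313, 138258, 138266, 136203, 262149]) (.leaf [136208, 138241, 138258, 136211, 131077]) (.leaf [135184, 136192, 269313, 138258, 138266, 135195, 136219, 131124, 131077]) z) z) (.leaf [138249, 138250, 131077]) (.leaf [138257, 138258, 131077]) z z⟩

def c7_22 : BCert := ⟨7, 22, 8, 10,
  .node false 8 (.node true 7 z (.leaf [138240, 270337, 139274, 139282, 138251, 262149]) (.leaf [138256, 139265, 139274, 138259, 131077]) z (.node true 4 z (.leaf [135176, 139265, 139298, 135179, 131077]) (.leaf [135184, 139265, 139298, 135187, 131077]) z (.leaf [135176, 138240, 270337, 139274, 139298, 135203, 138275, 131140, 131077]))) (.leaf [139273, 139274, 131077]) (.leaf [139281, 139282, 131077]) z z⟩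

def c9_26 : BCert := ⟨9, 26, 10, 10,
  .node false 10 (.node true 7 z (.leaf [138240, 272385, 141338, 141346, 138251, 262149]) z (.leaf [138264, 141313, 141338, 138267, 131077]) (.node true 6 z (.leaf [137240, 138240, 272385, 141338, 141346, 137227, 138275, 131116, 131077]) z (.leaf [137240, 141313, 141346, 137243, 131077]) (.leaf [137240, 138240, 272385, 141338, 141346, 137251, 138275, 131140, 131077]))) z z (.leaf [141337, 141338, 131077]) z⟩

def c9_28 : BCert := ⟨9, 28, 7, 10,
  .node false 7 (.node true 5 z z (.leaf [136192, 269313, 138258, 138274, 136211, 262149]) (.leaf [136216, 138241, 138258, 136219, 131077]) (.node true 4 z z (.leaf [135192, 136216, 269313, 138258, 138266, 135187, 136227, 262149]) (.leaf [135192, 138241, 138266, 135195, 131077]) (.leaf [135192, 136192, 269313, 138258, 138266, 135203, 136227, 131132, 131077]))) z z (.leaf [138265, 138266, 131077]) z⟩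

def c10_8 : BCert := ⟨10, 8, 10, 11,
  .node false 10 z (.node false 9 z (.node false 8 z (.leaf [136216, 137240, 139273, 140297, 141321, 139290, 140314, 141338, 136219, 137243, 131077]) z (.leaf [137240, 138264, 139289, 140297, 141321, 139290, 140314, 141338, 137243, 138267, 131077]) z) z (.leaf [138264, 140313, 141321, 140314, 141338, 138267, 131077]) z) z (.leaf [141337, 141338, 131077]) z⟩

def c11_9 : BCert := ⟨11, 9, 6, 7,
  .node false 6 (.leaf [137217, 137218, 131077]) (.node false 5 (.leaf [136193, 137225, 136194, 137218, 131077]) (.node false 4 (.leaf [135169, 136201, 137225, 135170, 136194, 137218, 131077]) (.leaf [135177, 136201, 137225, 135170, 136194, 137242, 131077]) z (.leaf [135193, 136201, 137225, 135194, 136194, 137218, 131077]) z) z (.leaf [136217, 137225, 136218, 137218, 131077]) z) z (.leaf [137241, 137242, 131077]) z⟩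

def c11_25 : BCert := ⟨11, 25, 6, 7,
  .node false 6 (.leaf [137217, 137218, 131077]) (.node false 5 (.leaf [136193, 137225, 136194, 137218, 131077]) (.node false 4 (.leaf [135169, 136201, 137225, 135170, 136194, 137218, 131077]) (.leaf [135177, 136201, 137225, 135170, 136194, 137242, 131077]) z (.leaf [135193, 136201, 137225, 135194, 136194, 137218, 131077]) z) z (.leaf [136217, 137225, 136218, 137218, 131077]) z) z (.leaf [137241, 137242, 131077]) z⟩

def c11_26 : BCert := ⟨11, 26, 8, 10,
  .node false 8 (.node true 7 z (.leaf [138248, 139265, 139274, 138251, 131077]) z (.leaf [138240, 270337, 139274, 139298, 138267, 262149]) (.node true 4 z (.leaf [135176, 139265, 139298, 135179, 131077]) z (.leaf [135192, 139265, 139298, 135195, 131077]) (.leaf [135176, 138240, 270337, 139274, 139298, 135203, 138275, 131140, 131077]))) (.leaf [139273, 139274, 131077]) z (.leaf [139289, 139290, 131077]) z⟩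

def c13_28 : BCert := ⟨13, 28, 8, 10,
  .node false 8 (.node true 4 z z (.leaf [135184, 139265, 139298, 135187, 131077]) (.leaf [135192, 139265, 139298, 135195, 131077]) (.node true 5 z z (.leaf [136208, 139265, 139290, 136211, 131077]) (.leaf [136216, 139265, 139290, 136219, 131077]) (.leaf [135192, 136192, 270337, 139290, 139298, 135203, 136227, 131140, 131077]))) z (.leaf [139281, 139282, 131077]) (.leaf [139289, 139290, 131077]) z⟩

def c13_30 : BCert := ⟨13, 30, 7, 10,
  .node false 7 (.node true 4 z (.leaf [135168, 269313, 138266, 138274, 135179, 262149]) (.leaf [135184, 138241, 138266, 135187, 131077]) (.leaf [135192, 138241, 138266, 135195, 131077]) (.node true 5 z (.leaf [136192, 269313, 138258, 138266, 136203, 262149]) (.leaf [136192, 269313, 138258, 138274, 136211, 262149]) (.leaf [136216, 138241, 138258, 136219, 131077]) (.leaf [135192, 136192, 269313, 138258, 138266, 135203, 136227, 131132, 131077]))) z (.leaf [138257, 138258, 131077]) (.leaf [138265, 138266, 131077]) z⟩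

def c15_13 : BCert := ⟨15, 13, 5, 5,
  .node false 5 (.leaf [136193, 136194, 131077]) (.node false 4 (.leaf [135169, 136201, 135170, 136194, 131077]) (.leaf [135177, 136201, 135170, 136210, 131077]) (.leaf [135185, 136201, 135186, 136194, 131077]) (.leaf [135193, 136201, 135194, 136194, 131077]) z) (.leaf [136209, 136210, 131077]) (.leaf [136217, 136218, 131077]) z⟩

def c15_14 : BCert := ⟨15, 14, 7, 5,
  .node false 7 (.node true 4 z (.leaf [135176, 138241, 138266, 135179, 131077]) (.leaf [135184, 138241, 138266, 135187, 131077]) (.leaf [135192, 138241, 138266, 135195, 131077]) z) (.leaf [138249, 138250, 131077]) (.leaf [138257, 138258, 131077]) (.leaf [138265, 138266, 131077]) z⟩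

def c15_27 : BCert := ⟨15, 27, 6, 5,
  .node false 6 (.leaf [137217, 137218, 131077]) (.leaf [137225, 137226, 131077]) (.node false 4 (.leaf [135169, 137233, 135170, 137218, 131077]) (.leaf [135177, 137233, 135178, 137218, 131077]) (.leaf [135185, 137233, 135170, 137250, 131077]) (.leaf [135193, 137233, 135194, 137218, 131077]) z) (.leaf [137241, 137242, 131077]) z⟩

def c15_29 : BCert := ⟨15, 29, 5, 5,
  .node false 5 (.leaf [136193, 136194, 131077]) (.node false 4 (.leaf [135169, 136201, 135170, 136194, 131077]) (.leaf [135177, 136201, 135170, 136210, 131077]) (.leaf [135185, 136201, 135186, 136194, 131077]) (.leaf [135193, 136201, 135194, 136194, 131077]) z) (.leaf [136209, 136210, 131077]) (.leaf [136217, 136218, 131077]) z⟩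

def c17_26 : BCert := ⟨17, 26, 7, 7,
  .node false 7 (.node true 6 z (.node false 5 (.node true 4 z (.leaf [135168, 269313, 138266, 138274, 135179, 262149]) z (.leaf [135168, 137216, 136193, 269313, 136226, 138250, 138266, 135195, 137227, 262149]) (.leaf [135200, 138241, 138266, 135203, 131077])) z z z (.leaf [137216, 136225, 138241, 136226, 138250, 137227, 131077])) z (.leaf [137216, 269313, 138250, 138274, 137243, 262149]) (.leaf [137248, 138241, 138250, 137251, 131077])) z z z (.leaf [138273, 138274, 131077])⟩

def c17_28 : BCert := ⟨17, 28, 10, 10,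
  .node false 10 (.node true 8 z z (.leaf [139264, 272385, 141330, 141346, 139283, 262149]) (.node true 6 z z (.leaf [137216, 139296, 272385, 141330, 141346, 137235, 139291, 131116, 131077]) (.node false 5 (.leaf [137216, 139264, 136193, 272385, 136210, 141330, 141346, 137243, 139291, 262149]) z z z (.leaf [139264, 136225, 141313, 136226, 141330, 139291, 131077])) (.leaf [137248, 141313, 141346, 137251, 131077])) (.leaf [139296, 141313, 141330, 139299, 131077])) z z z (.leaf [141345, 141346, 131077])⟩

def c18_16 : BCert := ⟨18, 16, 12, 15,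
  .node false 12 z (.node false 11 z (.node false 10 z (.node false 9 z (.leaf [136224, 137248, 138272, 140297, 141321, 142345, 143369, 140322, 141346, 142370, 143394, 136227, 137251, 138275, 131077]) z z (.leaf [137248, 138272, 139296, 140321, 141321, 142345, 143369, 140322, 141346, 142370, 143394, 137251, 138275, 139299, 131077])) z z (.leaf [138272, 139296, 141345, 142345, 143369, 141346, 142370, 143394, 138275, 139299, 131077])) z z (.leaf [139296, 142369, 143369, 142370, 143394, 139299, 131077])) z z (.leaf [143393, 143394, 131077])⟩

def c18_17 : BCert := ⟨18, 17, 7, 9,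
  .node false 7 z (.node false 6 z (.node false 5 z (.node false 4 z (.leaf [135177, 136201, 137225, 138249, 135170, 136194, 137218, 138274, 131077]) z z (.leaf [135201, 136201, 137225, 138249, 135202, 136194, 137218, 138242, 131077])) z z (.leaf [136225, 137225, 138249, 136226, 137218, 138242, 131077])) z z (.leaf [137249, 138249, 137250, 138242, 131077])) z z (.leaf [138273, 138274, 131077])⟩

def c19_25 : BCert := ⟨19, 25, 6, 7,
  .node false 6 (.leaf [137217, 137218, 131077]) (.node false 5 (.leaf [136193, 137225, 136194, 137218, 131077]) (.node false 4 (.leaf [135169, 136201, 137225, 135170, 136194, 137218, 131077]) (.leaf [135177, 136201, 137225, 135170, 136194, 137242, 131077]) z z (.leaf [135201, 136201, 137225, 135202, 136194, 137218, 131077])) z z (.leaf [136225, 137225, 136226, 137218, 131077])) z z (.leaf [137249, 137250, 131077])⟩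

def c19_30 : BCert := ⟨19, 30, 5, 5,
  .node false 5 (.node true 4 z (.leaf [135168, 267265, 136202, 136210, 135179, 262149]) (.leaf [135168, 267265, 136202, 136218, 135187, 262149]) (.leaf [135168, 267265, 136202, 136226, 135195, 262149]) (.leaf [135200, 136193, 136202, 135203, 131077])) (.leaf [136201, 136202, 131077]) z z (.leaf [136225, 136226, 131077])⟩

def c21_16 : BCert := ⟨21, 16, 10, 9,
  .node false 10 (.leaf [137248, 141313, 141346, 137251, 131077]) z (.node false 8 (.leaf [135200, 137248, 139265, 141329, 139298, 141346, 135203, 137251, 131077]) z (.leaf [135200, 139281, 141329, 139298, 141346, 135203, 131077]) z (.leaf [137248, 139297, 141329, 139298, 141346, 137251, 131077])) z (.leaf [141345, 141346, 131077])⟩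

def c21_28 : BCert := ⟨21, 28, 8, 5,
  .node false 8 (.node true 4 z z (.leaf [135184, 139265, 139298, 135187, 131077]) (.node true 5 z z (.leaf [136208, 139265, 139290, 136211, 131077]) (.leaf [135184, 136224, 270337, 139290, 139298, 135195, 136219, 262149]) (.leaf [136224, 139265, 139290, 136227, 131077])) (.leaf [135200, 139265, 139298, 135203, 131077])) z (.leaf [139281, 139282, 131077]) z (.leaf [139297, 139298, 131077])⟩

def c21_30 : BCert := ⟨21, 30, 5, 5,
  .node false 5 (.node true 4 z (.leaf [135168, 267265, 136202, 136210, 135179, 262149]) (.leaf [135168, 267265, 136202, 136218, 135187, 262149]) (.leaf [135168, 267265, 136202, 136226, 135195, 262149]) (.leaf [135200, 136193, 136202, 135203, 131077])) z (.leaf [136209, 136210, 131077]) z (.leaf [136225, 136226, 131077])⟩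

def c23_19 : BCert := ⟨23, 19, 6, 5,
  .node false 6 (.leaf [137217, 137218, 131077]) (.leaf [137225, 137226, 131077]) (.node false 4 (.leaf [135169, 137233, 135170, 137218, 131077]) (.leaf [135177, 137233, 135178, 137218, 131077]) (.leaf [135185, 137233, 135170, 137250, 131077]) z (.leaf [135201, 137233, 135202, 137218, 131077])) z (.leaf [137249, 137250, 131077])⟩

def c23_21 : BCert := ⟨23, 21, 5, 5,
  .node false 5 (.leaf [136193, 136194, 131077]) (.node false 4 (.leaf [135169, 136201, 135170, 136194, 131077]) (.leaf [135177, 136201, 135170, 136210, 131077]) (.leaf [135185, 136201, 135186, 136194, 131077]) z (.leaf [135201, 136201, 135202, 136194, 131077])) (.leaf [136209, 136210, 131077]) z (.leaf [136225, 136226, 131077])⟩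

def c23_22 : BCert := ⟨23, 22, 8, 5,
  .node false 8 (.node true 4 z (.leaf [135176, 139265, 139298, 135179, 131077]) (.leaf [135184, 139265, 139298, 135187, 131077]) z (.leaf [135200, 139265, 139298, 135203, 131077])) (.leaf [139273, 139274, 131077]) (.leaf [139281, 139282, 131077]) z (.leaf [139297, 139298, 131077])⟩

def c23_27 : BCert := ⟨23, 27, 6, 5,
  .node false 6 (.leaf [137217, 137218, 131077]) (.leaf [137225, 137226, 131077]) (.node false 4 (.leaf [135169, 137233, 135170, 137218, 131077]) (.leaf [135177, 137233, 135178, 137218, 131077]) (.leaf [135185, 137233, 135170, 137250, 131077]) z (.leaf [135201, 137233, 135202, 137218, 131077])) z (.leaf [137249, 137250, 131077])⟩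

def c23_29 : BCert := ⟨23, 29, 5, 5,
  .node false 5 (.leaf [136193, 136194, 131077]) (.node false 4 (.leaf [135169, 136201, 135170, 136194, 131077]) (.leaf [135177, 136201, 135170, 136210, 131077]) (.leaf [135185, 136201, 135186, 136194, 131077]) z (.leaf [135201, 136201, 135202, 136194, 131077])) (.leaf [136209, 136210, 131077]) z (.leaf [136225, 136226, 131077])⟩

def c23_30 : BCert := ⟨23, 30, 5, 5,
  .node false 5 (.node true 4 z (.leaf [135168, 267265, 136202, 136210, 135179, 262149]) (.leaf [135168, 267265, 136202, 136218, 135187, 262149]) (.leaf [135168, 267265, 136202, 136226, 135195, 262149]) (.leaf [135200, 136193, 136202, 135203, 131077])) (.leaf [136201, 136202, 131077]) (.leaf [136209, 136210, 131077]) z (.leaf [136225, 136226, 131077])⟩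

def c25_30 : BCert := ⟨25, 30, 6, 5,
  .node false 6 (.node true 4 z (.leaf [135168, 268289, 137234, 137242, 135179, 262149]) (.leaf [135168, 268289, 137234, 137250, 135187, 262149]) (.leaf [135192, 137217, 137234, 135195, 131077]) (.leaf [135200, 137217, 137234, 135203, 131077])) z z (.leaf [137241, 137242, 131077]) (.leaf [137249, 137250, 131077])⟩

def c26_25 : BCert := ⟨26, 25, 6, 7,
  .node false 6 z (.node false 5 z (.node false 4 z (.leaf [135177, 136201, 137225, 135170, 136194, 137242, 131077]) z (.leaf [135193, 136201, 137225, 135194, 136194, 137218, 131077]) (.leaf [135201, 136201, 137225, 135202, 136194, 137218, 131077])) z (.leaf [136217, 137225, 136218, 137218, 131077]) (.leaf [136225, 137225, 136226, 137218, 131077])) z (.leaf [137241, 137242, 131077]) (.leaf [137249, 137250, 131077])⟩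

def c27_26 : BCert := ⟨27, 26, 8, 5,
  .node false 8 (.node true 4 z (.leaf [135176, 139265, 139298, 135179, 131077]) z (.leaf [135192, 139265, 139298, 135195, 131077]) (.leaf [135200, 139265, 139298, 135203, 131077])) (.leaf [139273, 139274, 131077]) z (.leaf [139289, 139290, 131077]) (.leaf [139297, 139298, 131077])⟩

def c27_29 : BCert := ⟨27, 29, 5, 5,
  .node false 5 (.leaf [136193, 136194, 131077]) (.node false 4 (.leaf [135169, 136201, 135170, 136194, 131077]) (.leaf [135177, 136201, 135170, 136210, 131077]) z (.leaf [135193, 136201, 135194, 136194, 131077]) (.leaf [135201, 136201, 135202, 136194, 131077])) z (.leaf [136217, 136218, 131077]) (.leaf [136225, 136226, 131077])⟩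

def c27_30 : BCert := ⟨27, 30, 6, 5,
  .node false 6 (.node true 4 z (.leaf [135168, 268289, 137234, 137242, 135179, 262149]) (.leaf [135168, 268289, 137234, 137250, 135187, 262149]) (.leaf [135192, 137217, 137234, 135195, 131077]) (.leaf [135200, 137217, 137234, 135203, 131077])) (.leaf [137225, 137226, 131077]) z (.leaf [137241, 137242, 131077]) (.leaf [137249, 137250, 131077])⟩

def c28_24 : BCert := ⟨28, 24, 10, 7,
  .node false 10 z z (.node false 8 z z (.node true 5 z z z (.leaf [136216, 139281, 141329, 139290, 141346, 136219, 131077]) (.leaf [136224, 139281, 141329, 139290, 141346, 136227, 131077])) (.node true 7 z z z (.leaf [138256, 139289, 141329, 139298, 141338, 138267, 131077]) (.leaf [138272, 139289, 141329, 139290, 141338, 138275, 131077])) (.node true 7 z z z (.leaf [138264, 139297, 141329, 139298, 141338, 138267, 131077]) (.leaf [138272, 139297, 141329, 139298, 141338, 138275, 131077]))) (.leaf [141337, 141338, 131077]) (.leaf [141345, 141346, 131077])⟩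

def c29_25 : BCert := ⟨29, 25, 6, 5,
  .node false 6 (.leaf [137217, 137218, 131077]) z (.node false 4 (.leaf [135169, 137233, 135170, 137218, 131077]) z (.leaf [135185, 137233, 135170, 137250, 131077]) (.leaf [135193, 137233, 135194, 137218, 131077]) (.leaf [135201, 137233, 135202, 137218, 131077])) (.leaf [137241, 137242, 131077]) (.leaf [137249, 137250, 131077])⟩

def c29_27 : BCert := ⟨29, 27, 6, 5,
  .node false 6 (.leaf [137217, 137218, 131077]) z (.node false 4 (.leaf [135169, 137233, 135170, 137218, 131077]) z (.leaf [135185, 137233, 135170, 137250, 131077]) (.leaf [135193, 137233, 135194, 137218, 131077]) (.leaf [135201, 137233, 135202, 137218, 131077])) (.leaf [137241, 137242, 131077]) (.leaf [137249, 137250, 131077])⟩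

def c29_30 : BCert := ⟨29, 30, 7, 5,
  .node false 7 (.node true 4 z (.leaf [135168, 269313, 138266, 138274, 135179, 262149]) (.leaf [135184, 138241, 138266, 135187, 131077]) (.leaf [135192, 138241, 138266, 135195, 131077]) (.leaf [135200, 138241, 138266, 135203, 131077])) z (.leaf [138257, 138258, 131077]) (.leaf [138265, 138266, 131077]) (.leaf [138273, 138274, 131077])⟩

def c30_27 : BCert := ⟨30, 27, 6, 5,
  .node false 6 z (.leaf [137225, 137226, 131077]) (.node false 4 z (.leaf [135177, 137233, 135170, 137242, 131077]) (.leaf [135185, 137233, 135170, 137250, 131077]) (.leaf [135193, 137233, 135194, 137218, 131077]) (.leaf [135201, 137233, 135202, 137218, 131077])) (.leaf [137241, 137242, 131077]) (.leaf [137249, 137250, 131077])⟩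

def c30_29 : BCert := ⟨30, 29, 5, 5,
  .node false 5 z (.node false 4 z (.leaf [135177, 136201, 135170, 136210, 131077]) (.leaf [135185, 136201, 135186, 136194, 131077]) (.leaf [135193, 136201, 135194, 136194, 131077]) (.leaf [135201, 136201, 135202, 136194, 131077])) (.leaf [136209, 136210, 131077]) (.leaf [136217, 136218, 131077]) (.leaf [136225, 136226, 131077])⟩

def c31_27 : BCert := ⟨31, 27, 6, 5,
  .node false 6 (.leaf [137217, 137218, 131077]) (.leaf [137225, 137226, 131077]) (.node false 4 (.leaf [135169, 137233, 135170, 137218, 131077]) (.leaf [135177, 137233, 135178, 137218, 131077]) (.leaf [135185, 137233, 135170, 137250, 131077]) (.leaf [135193, 137233, 135194, 137218, 131077]) (.leaf [135201, 137233, 135202, 137218, 131077])) (.leaf [137241, 137242, 131077]) (.leaf [137249, 137250, 131077])⟩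

def c31_29 : BCert := ⟨31, 29, 5, 5,
  .node false 5 (.leaf [136193, 136194, 131077]) (.node false 4 (.leaf [135169, 136201, 135170, 136194, 131077]) (.leaf [135177, 136201, 135170, 136210, 131077]) (.leaf [135185, 136201, 135186, 136194, 131077]) (.leaf [135193, 136201, 135194, 136194, 131077]) (.leaf [135201, 136201, 135202, 136194, 131077])) (.leaf [136209, 136210, 131077]) (.leaf [136217, 136218, 131077]) (.leaf [136225, 136226, 131077])⟩

def c31_30 : BCert := ⟨31, 30, 8, 5,
  .node false 8 (.node true 4 z (.leaf [135176, 139265, 139298, 135179, 131077]) (.leaf [135184, 139265, 139298, 135187, 131077]) (.leaf [135192, 139265, 139298, 135195, 131077]) (.leaf [135200, 139265, 139298, 135203, 131077])) (.leaf [139273, 139274, 131077]) (.leaf [139281, 139282, 131077]) (.leaf [139289, 139290, 131077]) (.leaf [139297, 139298, 131077])⟩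

theorem c3_14_ok : c3_14.ok = true := by decide +kernel
theorem c3_17_ok : c3_17.ok = true := by decide +kernel
theorem c3_26_ok : c3_26.ok = true := by decide +kernel
theorem c5_14_ok : c5_14.ok = true := by decide +kernel
theorem c5_22_ok : c5_22.ok = true := by decide +kernel
theorem c6_25_ok : c6_25.ok = true := by decide +kernel
theorem c7_4_ok : c7_4.ok = true := by decide +kernel
theorem c7_14_ok : c7_14.ok = true := by decide +kernel
theorem c7_22_ok : c7_22.ok = true := by decide +kernel
theorem c9_26_ok : c9_26.ok = true := by decide +kernel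
theorem c9_28_ok : c9_28.ok = true := by decide +kernel
theorem c10_8_ok : c10_8.ok = true := by decide +kernel
theorem c11_9_ok : c11_9.ok = true := by decide +kernel
theorem c11_25_ok : c11_25.ok = true := by decide +kernel
theorem c11_26_ok : c11_26.ok = true := by decide +kernel
theorem c13_28_ok : c13_28.ok = true := by decide +kernel
theorem c13_30_ok : c13_30.ok = true := by decide +kernel
theorem c15_13_ok : c15_13.ok = true := by decide +kernel
theorem c15_14_ok : c15_14.ok = true := by decide +kernel
theorem c15_27_ok : c15_27.ok = true := by decide +kernel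
theorem c15_29_ok : c15_29.ok = true := by decide +kernel
theorem c17_26_ok : c17_26.ok = true := by decide +kernel
theorem c17_28_ok : c17_28.ok = true := by decide +kernel
theorem c18_16_ok : c18_16.ok = true := by decide +kernel
theorem c18_17_ok : c18_17.ok = true := by decide +kernel
theorem c19_25_ok : c19_25.ok = true := by decide +kernel
theorem c19_30_ok : c19_30.ok = true := by decide +kernel
theorem c21_16_ok : c21_16.ok = true := by decide +kernel
theorem c21_28_ok : c21_28.ok = true := by decide +kernel
theorem c21_30_ok : c21_30.ok = true := by decide +kernel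
theorem c23_19_ok : c23_19.ok = true := by decide +kernel
theorem c23_21_ok : c23_21.ok = true := by decide +kernel
theorem c23_22_ok : c23_22.ok = true := by decide +kernel
theorem c23_27_ok : c23_27.ok = true := by decide +kernel
theorem c23_29_ok : c23_29.ok = true := by decide +kernel
theorem c23_30_ok : c23_30.ok = true := by decide +kernel
theorem c25_30_ok : c25_30.ok = true := by decide +kernel
theorem c26_25_ok : c26_25.ok = true := by decide +kernel
theorem c27_26_ok : c27_26.ok = true := by decide +kernel
theorem c27_29_ok : c27_29.ok = true := by decide +kernel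
theorem c27_30_ok : c27_30.ok = true := by decide +kernel
theorem c28_24_ok : c28_24.ok = true := by decide +kernel
theorem c29_25_ok : c29_25.ok = true := by decide +kernel
theorem c29_27_ok : c29_27.ok = true := by decide +kernel
theorem c29_30_ok : c29_30.ok = true := by decide +kernel
theorem c30_27_ok : c30_27.ok = true := by decide +kernel
theorem c30_29_ok : c30_29.ok = true := by decide +kernel
theorem c31_27_ok : c31_27.ok = true := by decide +kernel
theorem c31_29_ok : c31_29.ok = true := by decide +kernel
theorem c31_30_ok : c31_30.ok = true := by decide +kernel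

def cases : List (ℕ × ℕ) := [(3, 14), (3, 17), (3, 26), (5, 14), (5, 22), (6, 25), (7, 4), (7, 14), (7, 22), (9, 26), (9, 28), (10, 8), (11, 9), (11, 25), (11, 26), (13, 28), (13, 30), (15, 13), (15, 14), (15, 27), (15, 29), (17, 26), (17, 28), (18, 16), (18, 17), (19, 25), (19, 30), (21, 16), (21, 28), (21, 30), (23, 19), (23, 21), (23, 22), (23, 27), (23, 29), (23, 30), (25, 30), (26, 25), (27, 26), (27, 29), (27, 30), (28, 24), (29, 25), (29, 27), (29, 30), (30, 27), (30, 29), (31, 27), (31, 29), (31, 30)]

theorem all : ∀ p ∈ cases, BddM p.1 p.2 := by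
  intro p hp
  simp only [cases, List.mem_cons, List.not_mem_nil, or_false] at hp
  rcases hp with rfl | rfl | rfl | rfl | rfl | rfl | rfl | rfl | rfl | rfl | rfl | rfl | rfl | rfl | rfl | rfl | rfl | rfl | rfl | rfl | rfl | rfl | rfl | rfl | rfl | rfl | rfl | rfl | rfl | rfl | rfl | rfl | rfl | rfl | rfl | rfl | rfl | rfl | rfl | rfl | rfl | rfl | rfl | rfl | rfl | rfl | rfl | rfl | rfl | rfl
  · exact BCert.bdd c3_14_ok
  · exact BCert.bdd c3_17_ok
  · exact BCert.bdd c3_26_ok
  · exact BCert.bdd c5_14_ok
  · exact BCert.bdd c5_22_ok
  · exact BCert.bdd c6_25_ok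
  · exact BCert.bdd c7_4_ok
  · exact BCert.bdd c7_14_ok
  · exact BCert.bdd c7_22_ok
  · exact BCert.bdd c9_26_ok
  · exact BCert.bdd c9_28_ok
  · exact BCert.bdd c10_8_ok
  · exact BCert.bdd c11_9_ok
  · exact BCert.bdd c11_25_ok
  · exact BCert.bdd c11_26_ok
  · exact BCert.bdd c13_28_ok
  · exact BCert.bdd c13_30_ok
  · exact BCert.bdd c15_13_ok
  · exact BCert.bdd c15_14_ok
  · exact BCert.bdd c15_27_ok
  · exact BCert.bdd c15_29_ok
  · exact BCert.bdd c17_26_ok
  · exact BCert.bdd c17_28_ok
  · exact BCert.bdd c18_16_ok
  · exact BCert.bdd c18_17_ok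
  · exact BCert.bdd c19_25_ok
  · exact BCert.bdd c19_30_ok
  · exact BCert.bdd c21_16_ok
  · exact BCert.bdd c21_28_ok
  · exact BCert.bdd c21_30_ok
  · exact BCert.bdd c23_19_ok
  · exact BCert.bdd c23_21_ok
  · exact BCert.bdd c23_22_ok
  · exact BCert.bdd c23_27_ok
  · exact BCert.bdd c23_29_ok
  · exact BCert.bdd c23_30_ok
  · exact BCert.bdd c25_30_ok
  · exact BCert.bdd c26_25_ok
  · exact BCert.bdd c27_26_ok
  · exact BCert.bdd c27_29_ok
  · exact BCert.bdd c27_30_ok
  · exact BCert.bdd c28_24_ok
  · exact BCert.bdd c29_25_ok
  · exact BCert.bdd c29_27_ok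
  · exact BCert.bdd c29_30_ok
  · exact BCert.bdd c30_27_ok
  · exact BCert.bdd c30_29_ok
  · exact BCert.bdd c31_27_ok
  · exact BCert.bdd c31_29_ok
  · exact BCert.bdd c31_30_ok

end Pool.Agent.H299.RDE.B05
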