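import Pool.Agent.H299.RDE.Bdd

set_option linter.all false
set_option maxRecDepth 100000

namespace Pool.Agent.H299.RDE.B06

open Pool.Agent.H299.RDE

def z : Tree := .leaf []

def c3_6 : BCert := ⟨3, 6, 6, 10,
  .node false 6 (.node true 5 z (.leaf [136192, 268289, 137226, 137234, 136203, 262149]) (.node true 4 z (.leaf [135176, 137217, 137234, 135179, 131077]) (.leaf [135176, 136192, 268289, 137226, 137234, 135187, 136211, 131108, 131077]) z z) z z) (.leaf [137225, 137226, 131077]) z z z⟩

def c3_9 : BCert := ⟨3, 9, 6, 7,
  .node false 6 (.leaf [137217, 137218, 131077]) (.node false 5 (.leaf [136193, 137225, 136194, 137218, 131077]) (.node false 4 (.leaf [135169, 136201, 137225, 135170, 136194, 137218, 131077]) (.leaf [135177, 136201, 137225, 135170, 136194, 137242, 131077]) z z z) z z z) z z z⟩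

def c3_10 : BCert := ⟨3, 10, 7, 10,
  .node false 7 (.node true 6 z (.leaf [137224, 138241, 138250, 137227, 131077]) z (.node true 4 z (.leaf [135176, 138241, 138266, 135179, 131077]) z (.leaf [135176, 137216, 269313, 138250, 138266, 135195, 137243, 131124, 131077]) z) z) (.leaf [138249, 138250, 131077]) z z z⟩

def c3_18 : BCert := ⟨3, 18, 8, 10,
  .node false 8 (.node true 7 z (.leaf [138248, 139265, 139274, 138251, 131077]) z z (.node true 4 z (.leaf [135176, 139265, 139298, 135179, 131077]) z z (.leaf [135176, 138240, 270337, 139274, 139298, 135203, 138275, 131140, 131077]))) (.leaf [139273, 139274, 131077]) z z z⟩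

def c3_25 : BCert := ⟨3, 25, 6, 7,
  .node false 6 (.leaf [137217, 137218, 131077]) (.node false 5 (.leaf [136193, 137225, 136194, 137218, 131077]) (.node false 4 (.leaf [135169, 136201, 137225, 135170, 136194, 137218, 131077]) (.leaf [135177, 136201, 137225, 135170, 136194, 137242, 131077]) z z z) z z z) z z z⟩

def c5_12 : BCert := ⟨5, 12, 7, 10,
  .node false 7 (.node true 5 z z (.leaf [136208, 138241, 138258, 136211, 131077]) (.node true 4 z z (.leaf [135184, 138241, 138266, 135187, 131077]) (.leaf [135184, 136192, 269313, 138258, 138266, 135195, 136219, 131124, 131077]) z) z) z (.leaf [138257, 138258, 131077]) z z⟩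

def c5_20 : BCert := ⟨5, 20, 8, 10,
  .node false 8 (.node true 6 z z (.leaf [137216, 270337, 139282, 139298, 137235, 262149]) z (.node true 4 z z (.leaf [135184, 139265, 139298, 135187, 131077]) z (.leaf [135184, 137216, 270337, 139282, 139298, 135203, 137251, 131140, 131077]))) z (.leaf [139281, 139282, 131077]) z z⟩

def c7_5 : BCert := ⟨7, 5, 5, 5,
  .node false 5 (.leaf [136193, 136194, 131077]) (.node false 4 (.leaf [135169, 136201, 135170, 136194, 131077]) (.leaf [135177, 136201, 135170, 136210, 131077]) (.leaf [135185, 136201, 135186, 136194, 131077]) z z) (.leaf [136209, 136210, 131077]) z z⟩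

def c7_13 : BCert := ⟨7, 13, 5, 5,
  .node false 5 (.leaf [136193, 136194, 131077]) (.node false 4 (.leaf [135169, 136201, 135170, 136194, 131077]) (.leaf [135177, 136201, 135170, 136210, 131077]) (.leaf [135185, 136201, 135186, 136194, 131077]) z z) (.leaf [136209, 136210, 131077]) z z⟩

def c7_19 : BCert := ⟨7, 19, 6, 5,
  .node false 6 (.leaf [137217, 137218, 131077]) (.leaf [137225, 137226, 131077]) (.node false 4 (.leaf [135169, 137233, 135170, 137218, 131077]) (.leaf [135177, 137233, 135178, 137218, 131077]) (.leaf [135185, 137233, 135170, 137250, 131077]) z z) z z⟩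

def c7_21 : BCert := ⟨7, 21, 5, 5,
  .node false 5 (.leaf [136193, 136194, 131077]) (.node false 4 (.leaf [135169, 136201, 135170, 136194, 131077]) (.leaf [135177, 136201, 135170, 136210, 131077]) (.leaf [135185, 136201, 135186, 136194, 131077]) z z) (.leaf [136209, 136210, 131077]) z z⟩

def c7_27 : BCert := ⟨7, 27, 6, 5,
  .node false 6 (.leaf [137217, 137218, 131077]) (.leaf [137225, 137226, 131077]) (.node false 4 (.leaf [135169, 137233, 135170, 137218, 131077]) (.leaf [135177, 137233, 135178, 137218, 131077]) (.leaf [135185, 137233, 135170, 137250, 131077]) z z) z z⟩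

def c7_29 : BCert := ⟨7, 29, 5, 5,
  .node false 5 (.leaf [136193, 136194, 131077]) (.node false 4 (.leaf [135169, 136201, 135170, 136194, 131077]) (.leaf [135177, 136201, 135170, 136210, 131077]) (.leaf [135185, 136201, 135186, 136194, 131077]) z z) (.leaf [136209, 136210, 131077]) z z⟩

def c9_10 : BCert := ⟨9, 10, 7, 10,
  .node false 7 (.node true 4 z (.node true 6 z (.leaf [135168, 137240, 269313, 138250, 138266, 135179, 137227, 131092, 131077]) z (.leaf [137240, 138241, 138250, 137243, 131077]) z) z (.leaf [135192, 138241, 138266, 135195, 131077]) z) z z (.leaf [138265, 138266, 131077]) z⟩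

def c9_12 : BCert := ⟨9, 12, 7, 10,
  .node false 7 (.node true 5 z z (.node true 4 z z (.leaf [135168, 136216, 269313, 138258, 138266, 135187, 136211, 131108, 131077]) (.leaf [135192, 138241, 138266, 135195, 131077]) z) (.leaf [136216, 138241, 138258, 136219, 131077]) z) z z (.leaf [138265, 138266, 131077]) z⟩

def c9_14 : BCert := ⟨9, 14, 5, 5,
  .node false 5 (.node true 4 z (.leaf [135168, 267265, 136202, 136210, 135179, 262149]) (.leaf [135168, 267265, 136202, 136218, 135187, 262149]) (.leaf [135192, 136193, 136202, 135195, 131077]) z) z z (.leaf [136217, 136218, 131077]) z⟩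

def c9_24 : BCert := ⟨9, 24, 8, 10,
  .node false 8 (.node true 5 z z z (.leaf [136216, 139265, 139290, 136219, 131077]) (.node true 4 z z z (.leaf [135192, 139265, 139298, 135195, 131077]) (.leaf [135192, 136192, 270337, 139290, 139298, 135203, 136227, 131140, 131077]))) z z (.leaf [139289, 139290, 131077]) z⟩

def c10_9 : BCert := ⟨10, 9, 6, 7,
  .node false 6 z (.node false 5 z (.node false 4 z (.leaf [135177, 136201, 137225, 135170, 136194, 137242, 131077]) z (.leaf [135193, 136201, 137225, 135194, 136194, 137218, 131077]) z) z (.leaf [136217, 137225, 136218, 137218, 131077]) z) z (.leaf [137241, 137242, 131077]) z⟩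

def c10_25 : BCert := ⟨10, 25, 6, 7,
  .node false 6 z (.node false 5 z (.node false 4 z (.leaf [135177, 136201, 137225, 135170, 136194, 137242, 131077]) z (.leaf [135193, 136201, 137225, 135194, 136194, 137218, 131077]) z) z (.leaf [136217, 137225, 136218, 137218, 131077]) z) z (.leaf [137241, 137242, 131077]) z⟩

def c11_13 : BCert := ⟨11, 13, 5, 5,
  .node false 5 (.leaf [136193, 136194, 131077]) (.node false 4 (.leaf [135169, 136201, 135170, 136194, 131077]) (.leaf [135177, 136201, 135170, 136210, 131077]) z (.leaf [135193, 136201, 135194, 136194, 131077]) z) z (.leaf [136217, 136218, 131077]) z⟩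

def c11_14 : BCert := ⟨11, 14, 5, 5,
  .node false 5 (.node true 4 z (.leaf [135168, 267265, 136202, 136210, 135179, 262149]) (.leaf [135168, 267265, 136202, 136218, 135187, 262149]) (.leaf [135192, 136193, 136202, 135195, 131077]) z) (.leaf [136201, 136202, 131077]) z (.leaf [136217, 136218, 131077]) z⟩

def c11_29 : BCert := ⟨11, 29, 5, 5,
  .node false 5 (.leaf [136193, 136194, 131077]) (.node false 4 (.leaf [135169, 136201, 135170, 136194, 131077]) (.leaf [135177, 136201, 135170, 136210, 131077]) z (.leaf [135193, 136201, 135194, 136194, 131077]) z) z (.leaf [136217, 136218, 131077]) z⟩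

def c13_14 : BCert := ⟨13, 14, 6, 5,
  .node false 6 (.node true 4 z (.leaf [135168, 268289, 137234, 137242, 135179, 262149]) (.leaf [135184, 137217, 137234, 135187, 131077]) (.leaf [135192, 137217, 137234, 135195, 131077]) z) z (.leaf [137233, 137234, 131077]) (.leaf [137241, 137242, 131077]) z⟩

def c13_25 : BCert := ⟨13, 25, 6, 5,
  .node false 6 (.leaf [137217, 137218, 131077]) z (.node false 4 (.leaf [135169, 137233, 135170, 137218, 131077]) z (.leaf [135185, 137233, 135170, 137250, 131077]) (.leaf [135193, 137233, 135194, 137218, 131077]) z) (.leaf [137241, 137242, 131077]) z⟩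

def c13_27 : BCert := ⟨13, 27, 6, 5,
  .node false 6 (.leaf [137217, 137218, 131077]) z (.node false 4 (.leaf [135169, 137233, 135170, 137218, 131077]) z (.leaf [135185, 137233, 135170, 137250, 131077]) (.leaf [135193, 137233, 135194, 137218, 131077]) z) (.leaf [137241, 137242, 131077]) z⟩

def c14_13 : BCert := ⟨14, 13, 5, 5,
  .node false 5 z (.node false 4 z (.leaf [135177, 136201, 135170, 136210, 131077]) (.leaf [135185, 136201, 135186, 136194, 131077]) (.leaf [135193, 136201, 135194, 136194, 131077]) z) (.leaf [136209, 136210, 131077]) (.leaf [136217, 136218, 131077]) z⟩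

def c14_27 : BCert := ⟨14, 27, 6, 5,
  .node false 6 z (.leaf [137225, 137226, 131077]) (.node false 4 z (.leaf [135177, 137233, 135170, 137242, 131077]) (.leaf [135185, 137233, 135170, 137250, 131077]) (.leaf [135193, 137233, 135194, 137218, 131077]) z) (.leaf [137241, 137242, 131077]) z⟩

def c14_29 : BCert := ⟨14, 29, 5, 5,
  .node false 5 z (.node false 4 z (.leaf [135177, 136201, 135170, 136210, 131077]) (.leaf [135185, 136201, 135186, 136194, 131077]) (.leaf [135193, 136201, 135194, 136194, 131077]) z) (.leaf [136209, 136210, 131077]) (.leaf [136217, 136218, 131077]) z⟩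

def c17_18 : BCert := ⟨17, 18, 8, 10,
  .node false 8 (.node true 4 z (.node true 7 z (.leaf [135168, 138272, 270337, 139274, 139298, 135179, 138251, 131092, 131077]) z z (.leaf [138272, 139265, 139274, 138275, 131077])) z z (.leaf [135200, 139265, 139298, 135203, 131077])) z z z (.leaf [139297, 139298, 131077])⟩

def c17_24 : BCert := ⟨17, 24, 8, 10,
  .node false 8 (.node true 5 z z z (.node true 4 z z z (.leaf [135168, 136224, 270337, 139290, 139298, 135195, 136219, 131124, 131077]) (.leaf [135200, 139265, 139298, 135203, 131077])) (.leaf [136224, 139265, 139290, 136227, 131077])) z z z (.leaf [139297, 139298, 131077])⟩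

def c18_25 : BCert := ⟨18, 25, 6, 7,
  .node false 6 z (.node false 5 z (.node false 4 z (.leaf [135177, 136201, 137225, 135170, 136194, 137242, 131077]) z z (.leaf [135201, 136201, 137225, 135202, 136194, 137218, 131077])) z z (.leaf [136225, 137225, 136226, 137218, 131077])) z z (.leaf [137249, 137250, 131077])⟩

def c19_21 : BCert := ⟨19, 21, 5, 5,
  .node false 5 (.leaf [136193, 136194, 131077]) (.node false 4 (.leaf [135169, 136201, 135170, 136194, 131077]) (.leaf [135177, 136201, 135170, 136210, 131077]) z z (.leaf [135201, 136201, 135202, 136194, 131077])) z z (.leaf [136225, 136226, 131077])⟩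

def c19_22 : BCert := ⟨19, 22, 6, 5,
  .node false 6 (.node true 4 z (.leaf [135176, 137217, 137234, 135179, 131077]) (.leaf [135168, 268289, 137234, 137250, 135187, 262149]) z (.leaf [135200, 137217, 137234, 135203, 131077])) (.leaf [137225, 137226, 131077]) z z (.leaf [137249, 137250, 131077])⟩

def c19_26 : BCert := ⟨19, 26, 5, 5,
  .node false 5 (.node true 4 z (.leaf [135176, 136193, 136202, 135179, 131077]) z (.leaf [135168, 267265, 136202, 136226, 135195, 262149]) (.leaf [135200, 136193, 136202, 135203, 131077])) (.leaf [136201, 136202, 131077]) z z (.leaf [136225, 136226, 131077])⟩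

def c19_29 : BCert := ⟨19, 29, 5, 5,
  .node false 5 (.leaf [136193, 136194, 131077]) (.node false 4 (.leaf [135169, 136201, 135170, 136194, 131077]) (.leaf [135177, 136201, 135170, 136210, 131077]) z z (.leaf [135201, 136201, 135202, 136194, 131077])) z z (.leaf [136225, 136226, 131077])⟩

def c21_17 : BCert := ⟨21, 17, 6, 5,
  .node false 6 (.leaf [137217, 137218, 131077]) z (.node false 4 (.leaf [135169, 137233, 135170, 137218, 131077]) z (.leaf [135185, 137233, 135170, 137250, 131077]) z (.leaf [135201, 137233, 135202, 137218, 131077])) z (.leaf [137249, 137250, 131077])⟩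

def c21_19 : BCert := ⟨21, 19, 6, 5,
  .node false 6 (.leaf [137217, 137218, 131077]) z (.node false 4 (.leaf [135169, 137233, 135170, 137218, 131077]) z (.leaf [135185, 137233, 135170, 137250, 131077]) z (.leaf [135201, 137233, 135202, 137218, 131077])) z (.leaf [137249, 137250, 131077])⟩

def c21_22 : BCert := ⟨21, 22, 5, 5,
  .node false 5 (.node true 4 z (.leaf [135168, 267265, 136202, 136210, 135179, 262149]) (.leaf [135184, 136193, 136202, 135187, 131077]) z (.leaf [135200, 136193, 136202, 135203, 131077])) z (.leaf [136209, 136210, 131077]) z (.leaf [136225, 136226, 131077])⟩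

def c21_25 : BCert := ⟨21, 25, 6, 5,
  .node false 6 (.leaf [137217, 137218, 131077]) z (.node false 4 (.leaf [135169, 137233, 135170, 137218, 131077]) z (.leaf [135185, 137233, 135170, 137250, 131077]) z (.leaf [135201, 137233, 135202, 137218, 131077])) z (.leaf [137249, 137250, 131077])⟩

def c21_27 : BCert := ⟨21, 27, 6, 5,
  .node false 6 (.leaf [137217, 137218, 131077]) z (.node false 4 (.leaf [135169, 137233, 135170, 137218, 131077]) z (.leaf [135185, 137233, 135170, 137250, 131077]) z (.leaf [135201, 137233, 135202, 137218, 131077])) z (.leaf [137249, 137250, 131077])⟩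

def c22_19 : BCert := ⟨22, 19, 6, 5,
  .node false 6 z (.leaf [137225, 137226, 131077]) (.node false 4 z (.leaf [135177, 137233, 135178, 137218, 131077]) (.leaf [135185, 137233, 135170, 137250, 131077]) z (.leaf [135201, 137233, 135202, 137218, 131077])) z (.leaf [137249, 137250, 131077])⟩

def c22_21 : BCert := ⟨22, 21, 5, 5,
  .node false 5 z (.node false 4 z (.leaf [135177, 136201, 135170, 136210, 131077]) (.leaf [135185, 136201, 135186, 136194, 131077]) z (.leaf [135201, 136201, 135202, 136194, 131077])) (.leaf [136209, 136210, 131077]) z (.leaf [136225, 136226, 131077])⟩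

def c22_27 : BCert := ⟨22, 27, 6, 5,
  .node false 6 z (.leaf [137225, 137226, 131077]) (.node false 4 z (.leaf [135177, 137233, 135170, 137242, 131077]) (.leaf [135185, 137233, 135170, 137250, 131077]) z (.leaf [135201, 137233, 135202, 137218, 131077])) z (.leaf [137249, 137250, 131077])⟩

def c22_29 : BCert := ⟨22, 29, 5, 5,
  .node false 5 z (.node false 4 z (.leaf [135177, 136201, 135170, 136210, 131077]) (.leaf [135185, 136201, 135186, 136194, 131077]) z (.leaf [135201, 136201, 135202, 136194, 131077])) (.leaf [136209, 136210, 131077]) z (.leaf [136225, 136226, 131077])⟩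

def c25_26 : BCert := ⟨25, 26, 7, 5,
  .node false 7 (.node true 4 z (.leaf [135168, 269313, 138266, 138274, 135179, 262149]) z (.leaf [135192, 138241, 138266, 135195, 131077]) (.leaf [135200, 138241, 138266, 135203, 131077])) z z (.leaf [138265, 138266, 131077]) (.leaf [138273, 138274, 131077])⟩

def c25_28 : BCert := ⟨25, 28, 6, 5,
  .node false 6 (.node true 4 z z (.leaf [135168, 268289, 137234, 137250, 135187, 262149]) (.leaf [135192, 137217, 137234, 135195, 131077]) (.leaf [135200, 137217, 137234, 135203, 131077])) z z (.leaf [137241, 137242, 131077]) (.leaf [137249, 137250, 131077])⟩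

def c26_29 : BCert := ⟨26, 29, 5, 5,
  .node false 5 z (.node false 4 z (.leaf [135177, 136201, 135170, 136210, 131077]) z (.leaf [135193, 136201, 135194, 136194, 131077]) (.leaf [135201, 136201, 135202, 136194, 131077])) z (.leaf [136217, 136218, 131077]) (.leaf [136225, 136226, 131077])⟩

def c28_25 : BCert := ⟨28, 25, 6, 5,
  .node false 6 z z (.node false 4 z z (.leaf [135185, 137233, 135170, 137250, 131077]) (.leaf [135193, 137233, 135194, 137218, 131077]) (.leaf [135201, 137233, 135202, 137218, 131077])) (.leaf [137241, 137242, 131077]) (.leaf [137249, 137250, 131077])⟩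

def c28_27 : BCert := ⟨28, 27, 6, 5,
  .node false 6 z z (.node false 4 z z (.leaf [135185, 137233, 135170, 137250, 131077]) (.leaf [135193, 137233, 135194, 137218, 131077]) (.leaf [135201, 137233, 135202, 137218, 131077])) (.leaf [137241, 137242, 131077]) (.leaf [137249, 137250, 131077])⟩

def c29_28 : BCert := ⟨29, 28, 7, 5,
  .node false 7 (.node true 4 z z (.leaf [135184, 138241, 138266, 135187, 131077]) (.leaf [135192, 138241, 138266, 135195, 131077]) (.leaf [135200, 138241, 138266, 135203, 131077])) z (.leaf [138257, 138258, 131077]) (.leaf [138265, 138266, 131077]) (.leaf [138273, 138274, 131077])⟩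

theorem c3_6_ok : c3_6.ok = true := by decide +kernel
theorem c3_9_ok : c3_9.ok = true := by decide +kernel
theorem c3_10_ok : c3_10.ok = true := by decide +kernel
theorem c3_18_ok : c3_18.ok = true := by decide +kernel
theorem c3_25_ok : c3_25.ok = true := by decide +kernel
theorem c5_12_ok : c5_12.ok = true := by decide +kernel
theorem c5_20_ok : c5_20.ok = true := by decide +kernel
theorem c7_5_ok : c7_5.ok = true := by decide +kernel
theorem c7_13_ok : c7_13.ok = true := by decide +kernel
theorem c7_19_ok : c7_19.ok = true := by decide +kernel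
theorem c7_21_ok : c7_21.ok = true := by decide +kernel
theorem c7_27_ok : c7_27.ok = true := by decide +kernel
theorem c7_29_ok : c7_29.ok = true := by decide +kernel
theorem c9_10_ok : c9_10.ok = true := by decide +kernel
theorem c9_12_ok : c9_12.ok = true := by decide +kernel
theorem c9_14_ok : c9_14.ok = true := by decide +kernel
theorem c9_24_ok : c9_24.ok = true := by decide +kernel
theorem c10_9_ok : c10_9.ok = true := by decide +kernel
theorem c10_25_ok : c10_25.ok = true := by decide +kernel
theorem c11_13_ok : c11_13.ok = true := by decide +kernel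
theorem c11_14_ok : c11_14.ok = true := by decide +kernel
theorem c11_29_ok : c11_29.ok = true := by decide +kernel
theorem c13_14_ok : c13_14.ok = true := by decide +kernel
theorem c13_25_ok : c13_25.ok = true := by decide +kernel
theorem c13_27_ok : c13_27.ok = true := by decide +kernel
theorem c14_13_ok : c14_13.ok = true := by decide +kernel
theorem c14_27_ok : c14_27.ok = true := by decide +kernel
theorem c14_29_ok : c14_29.ok = true := by decide +kernel
theorem c17_18_ok : c17_18.ok = true := by decide +kernel
theorem c17_24_ok : c17_24.ok = true := by decide +kernel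
theorem c18_25_ok : c18_25.ok = true := by decide +kernel
theorem c19_21_ok : c19_21.ok = true := by decide +kernel
theorem c19_22_ok : c19_22.ok = true := by decide +kernel
theorem c19_26_ok : c19_26.ok = true := by decide +kernel
theorem c19_29_ok : c19_29.ok = true := by decide +kernel
theorem c21_17_ok : c21_17.ok = true := by decide +kernel
theorem c21_19_ok : c21_19.ok = true := by decide +kernel
theorem c21_22_ok : c21_22.ok = true := by decide +kernel
theorem c21_25_ok : c21_25.ok = true := by decide +kernel
theorem c21_27_ok : c21_27.ok = true := by decide +kernel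
theorem c22_19_ok : c22_19.ok = true := by decide +kernel
theorem c22_21_ok : c22_21.ok = true := by decide +kernel
theorem c22_27_ok : c22_27.ok = true := by decide +kernel
theorem c22_29_ok : c22_29.ok = true := by decide +kernel
theorem c25_26_ok : c25_26.ok = true := by decide +kernel
theorem c25_28_ok : c25_28.ok = true := by decide +kernel
theorem c26_29_ok : c26_29.ok = true := by decide +kernel
theorem c28_25_ok : c28_25.ok = true := by decide +kernel
theorem c28_27_ok : c28_27.ok = true := by decide +kernel
theorem c29_28_ok : c29_28.ok = true := by decide +kernel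

def cases : List (ℕ × ℕ) := [(3, 6), (3, 9), (3, 10), (3, 18), (3, 25), (5, 12), (5, 20), (7, 5), (7, 13), (7, 19), (7, 21), (7, 27), (7, 29), (9, 10), (9, 12), (9, 14), (9, 24), (10, 9), (10, 25), (11, 13), (11, 14), (11, 29), (13, 14), (13, 25), (13, 27), (14, 13), (14, 27), (14, 29), (17, 18), (17, 24), (18, 25), (19, 21), (19, 22), (19, 26), (19, 29), (21, 17), (21, 19), (21, 22), (21, 25), (21, 27), (22, 19), (22, 21), (22, 27), (22, 29), (25, 26), (25, 28), (26, 29), (28, 25), (28, 27), (29, 28)]

theorem all : ∀ p ∈ cases, BddM p.1 p.2 := by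
  intro p hp
  simp only [cases, List.mem_cons, List.not_mem_nil, or_false] at hp
  rcases hp with rfl | rfl | rfl | rfl | rfl | rfl | rfl | rfl | rfl | rfl | rfl | rfl | rfl | rfl | rfl | rfl | rfl | rfl | rfl | rfl | rfl | rfl | rfl | rfl | rfl | rfl | rfl | rfl | rfl | rfl | rfl | rfl | rfl | rfl | rfl | rfl | rfl | rfl | rfl | rfl | rfl | rfl | rfl | rfl | rfl | rfl | rfl | rfl | rfl | rfl
  · exact BCert.bdd c3_6_ok
  · exact BCert.bdd c3_9_ok
  · exact BCert.bdd c3_10_ok
  · exact BCert.bdd c3_18_ok
  · exact BCert.bdd c3_25_ok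
  · exact BCert.bdd c5_12_ok
  · exact BCert.bdd c5_20_ok
  · exact BCert.bdd c7_5_ok
  · exact BCert.bdd c7_13_ok
  · exact BCert.bdd c7_19_ok
  · exact BCert.bdd c7_21_ok
  · exact BCert.bdd c7_27_ok
  · exact BCert.bdd c7_29_ok
  · exact BCert.bdd c9_10_ok
  · exact BCert.bdd c9_12_ok
  · exact BCert.bdd c9_14_ok
  · exact BCert.bdd c9_24_ok
  · exact BCert.bdd c10_9_ok
  · exact BCert.bdd c10_25_ok
  · exact BCert.bdd c11_13_ok
  · exact BCert.bdd c11_14_ok
  · exact BCert.bdd c11_29_ok
  · exact BCert.bdd c13_14_ok
  · exact BCert.bdd c13_25_ok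
  · exact BCert.bdd c13_27_ok
  · exact BCert.bdd c14_13_ok
  · exact BCert.bdd c14_27_ok
  · exact BCert.bdd c14_29_ok
  · exact BCert.bdd c17_18_ok
  · exact BCert.bdd c17_24_ok
  · exact BCert.bdd c18_25_ok
  · exact BCert.bdd c19_21_ok
  · exact BCert.bdd c19_22_ok
  · exact BCert.bdd c19_26_ok
  · exact BCert.bdd c19_29_ok
  · exact BCert.bdd c21_17_ok
  · exact BCert.bdd c21_19_ok
  · exact BCert.bdd c21_22_ok
  · exact BCert.bdd c21_25_ok
  · exact BCert.bdd c21_27_ok
  · exact BCert.bdd c22_19_ok
  · exact BCert.bdd c22_21_ok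
  · exact BCert.bdd c22_27_ok
  · exact BCert.bdd c22_29_ok
  · exact BCert.bdd c25_26_ok
  · exact BCert.bdd c25_28_ok
  · exact BCert.bdd c26_29_ok
  · exact BCert.bdd c28_25_ok
  · exact BCert.bdd c28_27_ok
  · exact BCert.bdd c29_28_ok

end Pool.Agent.H299.RDE.B06
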