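import Pool.Agent.H299.RDE.Bdd

set_option linter.all false
set_option maxRecDepth 100000

namespace Pool.Agent.H299.RDE.B07

open Pool.Agent.H299.RDE

def z : Tree := .leaf []

def c3_5 : BCert := ⟨3, 5, 5, 5,
  .node false 5 (.leaf [136193, 136194, 131077]) (.node false 4 (.leaf [135169, 136201, 135170, 136194, 131077]) (.leaf [135177, 136201, 135170, 136210, 131077]) z z z) z z z⟩

def c3_13 : BCert := ⟨3, 13, 5, 5,
  .node false 5 (.leaf [136193, 136194, 131077]) (.node false 4 (.leaf [135169, 136201, 135170, 136194, 131077]) (.leaf [135177, 136201, 135170, 136210, 131077]) z z z) z z z⟩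

def c3_21 : BCert := ⟨3, 21, 5, 5,
  .node false 5 (.leaf [136193, 136194, 131077]) (.node false 4 (.leaf [135169, 136201, 135170, 136194, 131077]) (.leaf [135177, 136201, 135170, 136210, 131077]) z z z) z z z⟩

def c3_29 : BCert := ⟨3, 29, 5, 5,
  .node false 5 (.leaf [136193, 136194, 131077]) (.node false 4 (.leaf [135169, 136201, 135170, 136194, 131077]) (.leaf [135177, 136201, 135170, 136210, 131077]) z z z) z z z⟩

def c5_6 : BCert := ⟨5, 6, 5, 5,
  .node false 5 (.node true 4 z (.leaf [135168, 267265, 136202, 136210, 135179, 262149]) (.leaf [135184, 136193, 136202, 135187, 131077]) z z) z (.leaf [136209, 136210, 131077]) z z⟩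

def c5_17 : BCert := ⟨5, 17, 6, 5,
  .node false 6 (.leaf [137217, 137218, 131077]) z (.node false 4 (.leaf [135169, 137233, 135170, 137218, 131077]) z (.leaf [135185, 137233, 135170, 137250, 131077]) z z) z z⟩

def c5_19 : BCert := ⟨5, 19, 6, 5,
  .node false 6 (.leaf [137217, 137218, 131077]) z (.node false 4 (.leaf [135169, 137233, 135170, 137218, 131077]) z (.leaf [135185, 137233, 135170, 137250, 131077]) z z) z z⟩

def c5_25 : BCert := ⟨5, 25, 6, 5,
  .node false 6 (.leaf [137217, 137218, 131077]) z (.node false 4 (.leaf [135169, 137233, 135170, 137218, 131077]) z (.leaf [135185, 137233, 135170, 137250, 131077]) z z) z z⟩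

def c5_27 : BCert := ⟨5, 27, 6, 5,
  .node false 6 (.leaf [137217, 137218, 131077]) z (.node false 4 (.leaf [135169, 137233, 135170, 137218, 131077]) z (.leaf [135185, 137233, 135170, 137250, 131077]) z z) z z⟩

def c6_4 : BCert := ⟨6, 4, 7, 7,
  .node false 7 z (.node false 6 z (.leaf [135184, 137225, 138249, 137234, 138258, 135187, 131077]) (.leaf [136208, 137233, 138249, 137234, 138258, 136211, 131077]) z z) (.leaf [138257, 138258, 131077]) z z⟩

def c6_5 : BCert := ⟨6, 5, 5, 5,
  .node false 5 z (.node false 4 z (.leaf [135177, 136201, 135170, 136210, 131077]) (.leaf [135185, 136201, 135186, 136194, 131077]) z z) (.leaf [136209, 136210, 131077]) z z⟩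

def c6_13 : BCert := ⟨6, 13, 5, 5,
  .node false 5 z (.node false 4 z (.leaf [135177, 136201, 135170, 136210, 131077]) (.leaf [135185, 136201, 135186, 136194, 131077]) z z) (.leaf [136209, 136210, 131077]) z z⟩

def c6_19 : BCert := ⟨6, 19, 6, 5,
  .node false 6 z (.leaf [137225, 137226, 131077]) (.node false 4 z (.leaf [135177, 137233, 135178, 137218, 131077]) (.leaf [135185, 137233, 135170, 137250, 131077]) z z) z z⟩

def c6_21 : BCert := ⟨6, 21, 5, 5,
  .node false 5 z (.node false 4 z (.leaf [135177, 136201, 135170, 136210, 131077]) (.leaf [135185, 136201, 135186, 136194, 131077]) z z) (.leaf [136209, 136210, 131077]) z z⟩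

def c6_27 : BCert := ⟨6, 27, 6, 5,
  .node false 6 z (.leaf [137225, 137226, 131077]) (.node false 4 z (.leaf [135177, 137233, 135170, 137242, 131077]) (.leaf [135185, 137233, 135170, 137250, 131077]) z z) z z⟩

def c6_29 : BCert := ⟨6, 29, 5, 5,
  .node false 5 z (.node false 4 z (.leaf [135177, 136201, 135170, 136210, 131077]) (.leaf [135185, 136201, 135186, 136194, 131077]) z z) (.leaf [136209, 136210, 131077]) z z⟩

def c7_6 : BCert := ⟨7, 6, 6, 5,
  .node false 6 (.node true 4 z (.leaf [135176, 137217, 137234, 135179, 131077]) (.leaf [135184, 137217, 137234, 135187, 131077]) z z) (.leaf [137225, 137226, 131077]) (.leaf [137233, 137234, 131077]) z z⟩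

def c7_7 : BCert := ⟨7, 7, 4, 3,
  .node false 4 (.leaf [135169, 135170, 131077]) (.leaf [135177, 135178, 131077]) (.leaf [135185, 135186, 131077]) z z⟩

def c7_15 : BCert := ⟨7, 15, 4, 3,
  .node false 4 (.leaf [135169, 135170, 131077]) (.leaf [135177, 135178, 131077]) (.leaf [135185, 135186, 131077]) z z⟩

def c7_23 : BCert := ⟨7, 23, 4, 3,
  .node false 4 (.leaf [135169, 135170, 131077]) (.leaf [135177, 135178, 131077]) (.leaf [135185, 135186, 131077]) z z⟩

def c7_31 : BCert := ⟨7, 31, 4, 3,
  .node false 4 (.leaf [135169, 135170, 131077]) (.leaf [135177, 135178, 131077]) (.leaf [135185, 135186, 131077]) z z⟩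

def c10_13 : BCert := ⟨10, 13, 5, 5,
  .node false 5 z (.node false 4 z (.leaf [135177, 136201, 135170, 136210, 131077]) z (.leaf [135193, 136201, 135194, 136194, 131077]) z) z (.leaf [136217, 136218, 131077]) z⟩

def c10_29 : BCert := ⟨10, 29, 5, 5,
  .node false 5 z (.node false 4 z (.leaf [135177, 136201, 135170, 136210, 131077]) z (.leaf [135193, 136201, 135194, 136194, 131077]) z) z (.leaf [136217, 136218, 131077]) z⟩

def c11_10 : BCert := ⟨11, 10, 5, 5,
  .node false 5 (.node true 4 z (.leaf [135176, 136193, 136202, 135179, 131077]) z (.leaf [135192, 136193, 136202, 135195, 131077]) z) (.leaf [136201, 136202, 131077]) z (.leaf [136217, 136218, 131077]) z⟩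

def c11_11 : BCert := ⟨11, 11, 4, 3,
  .node false 4 (.leaf [135169, 135170, 131077]) (.leaf [135177, 135178, 131077]) z (.leaf [135193, 135194, 131077]) z⟩

def c12_25 : BCert := ⟨12, 25, 6, 5,
  .node false 6 z z (.node false 4 z z (.leaf [135185, 137233, 135170, 137250, 131077]) (.leaf [135193, 137233, 135194, 137218, 131077]) z) (.leaf [137241, 137242, 131077]) z⟩

def c12_27 : BCert := ⟨12, 27, 6, 5,
  .node false 6 z z (.node false 4 z z (.leaf [135185, 137233, 135170, 137250, 131077]) (.leaf [135193, 137233, 135194, 137218, 131077]) z) (.leaf [137241, 137242, 131077]) z⟩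

def c13_12 : BCert := ⟨13, 12, 6, 5,
  .node false 6 (.node true 4 z z (.leaf [135184, 137217, 137234, 135187, 131077]) (.leaf [135192, 137217, 137234, 135195, 131077]) z) z (.leaf [137233, 137234, 131077]) (.leaf [137241, 137242, 131077]) z⟩

def c15_15 : BCert := ⟨15, 15, 4, 3,
  .node false 4 (.leaf [135169, 135170, 131077]) (.leaf [135177, 135178, 131077]) (.leaf [135185, 135186, 131077]) (.leaf [135193, 135194, 131077]) z⟩

def c15_31 : BCert := ⟨15, 31, 4, 3,
  .node false 4 (.leaf [135169, 135170, 131077]) (.leaf [135177, 135178, 131077]) (.leaf [135185, 135186, 131077]) (.leaf [135193, 135194, 131077]) z⟩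

def c17_20 : BCert := ⟨17, 20, 6, 5,
  .node false 6 (.node true 4 z z (.leaf [135168, 268289, 137234, 137250, 135187, 262149]) z (.leaf [135200, 137217, 137234, 135203, 131077])) z z z (.leaf [137249, 137250, 131077])⟩

def c18_21 : BCert := ⟨18, 21, 5, 5,
  .node false 5 z (.node false 4 z (.leaf [135177, 136201, 135170, 136210, 131077]) z z (.leaf [135201, 136201, 135202, 136194, 131077])) z z (.leaf [136225, 136226, 131077])⟩

def c18_29 : BCert := ⟨18, 29, 5, 5,
  .node false 5 z (.node false 4 z (.leaf [135177, 136201, 135170, 136210, 131077]) z z (.leaf [135201, 136201, 135202, 136194, 131077])) z z (.leaf [136225, 136226, 131077])⟩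

def c19_18 : BCert := ⟨19, 18, 5, 5,
  .node false 5 (.node true 4 z (.leaf [135176, 136193, 136202, 135179, 131077]) z z (.leaf [135200, 136193, 136202, 135203, 131077])) (.leaf [136201, 136202, 131077]) z z (.leaf [136225, 136226, 131077])⟩

def c20_16 : BCert := ⟨20, 16, 10, 7,
  .node false 10 z z (.node false 8 z z (.leaf [135200, 139281, 141329, 139298, 141346, 135203, 131077]) z (.leaf [137248, 139297, 141329, 139298, 141346, 137251, 131077])) z (.leaf [141345, 141346, 131077])⟩

def c20_17 : BCert := ⟨20, 17, 6, 5,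
  .node false 6 z z (.node false 4 z z (.leaf [135185, 137233, 135170, 137250, 131077]) z (.leaf [135201, 137233, 135202, 137218, 131077])) z (.leaf [137249, 137250, 131077])⟩

def c20_19 : BCert := ⟨20, 19, 6, 5,
  .node false 6 z z (.node false 4 z z (.leaf [135185, 137233, 135170, 137250, 131077]) z (.leaf [135201, 137233, 135202, 137218, 131077])) z (.leaf [137249, 137250, 131077])⟩

def c20_25 : BCert := ⟨20, 25, 6, 5,
  .node false 6 z z (.node false 4 z z (.leaf [135185, 137233, 135170, 137250, 131077]) z (.leaf [135201, 137233, 135202, 137218, 131077])) z (.leaf [137249, 137250, 131077])⟩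

def c20_27 : BCert := ⟨20, 27, 6, 5,
  .node false 6 z z (.node false 4 z z (.leaf [135185, 137233, 135170, 137250, 131077]) z (.leaf [135201, 137233, 135202, 137218, 131077])) z (.leaf [137249, 137250, 131077])⟩

def c21_20 : BCert := ⟨21, 20, 8, 5,
  .node false 8 (.node true 4 z z (.leaf [135184, 139265, 139298, 135187, 131077]) z (.leaf [135200, 139265, 139298, 135203, 131077])) z (.leaf [139281, 139282, 131077]) z (.leaf [139297, 139298, 131077])⟩

def c23_23 : BCert := ⟨23, 23, 4, 3,
  .node false 4 (.leaf [135169, 135170, 131077]) (.leaf [135177, 135178, 131077]) (.leaf [135185, 135186, 131077]) z (.leaf [135201, 135202, 131077])⟩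

def c23_31 : BCert := ⟨23, 31, 4, 3,
  .node false 4 (.leaf [135169, 135170, 131077]) (.leaf [135177, 135178, 131077]) (.leaf [135185, 135186, 131077]) z (.leaf [135201, 135202, 131077])⟩

def c25_24 : BCert := ⟨25, 24, 7, 5,
  .node false 7 (.node true 4 z z z (.leaf [135192, 138241, 138266, 135195, 131077]) (.leaf [135200, 138241, 138266, 135203, 131077])) z z (.leaf [138265, 138266, 131077]) (.leaf [138273, 138274, 131077])⟩

def c27_27 : BCert := ⟨27, 27, 4, 3,
  .node false 4 (.leaf [135169, 135170, 131077]) (.leaf [135177, 135178, 131077]) z (.leaf [135193, 135194, 131077]) (.leaf [135201, 135202, 131077])⟩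

def c27_31 : BCert := ⟨27, 31, 4, 3,
  .node false 4 (.leaf [135169, 135170, 131077]) (.leaf [135177, 135178, 131077]) z (.leaf [135193, 135194, 131077]) (.leaf [135201, 135202, 131077])⟩

def c29_29 : BCert := ⟨29, 29, 4, 3,
  .node false 4 (.leaf [135169, 135170, 131077]) z (.leaf [135185, 135186, 131077]) (.leaf [135193, 135194, 131077]) (.leaf [135201, 135202, 131077])⟩

def c29_31 : BCert := ⟨29, 31, 4, 3,
  .node false 4 (.leaf [135169, 135170, 131077]) z (.leaf [135185, 135186, 131077]) (.leaf [135193, 135194, 131077]) (.leaf [135201, 135202, 131077])⟩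

def c30_30 : BCert := ⟨30, 30, 4, 3,
  .node false 4 z (.leaf [135177, 135178, 131077]) (.leaf [135185, 135186, 131077]) (.leaf [135193, 135194, 131077]) (.leaf [135201, 135202, 131077])⟩

def c30_31 : BCert := ⟨30, 31, 4, 3,
  .node false 4 z (.leaf [135177, 135178, 131077]) (.leaf [135185, 135186, 131077]) (.leaf [135193, 135194, 131077]) (.leaf [135201, 135202, 131077])⟩

def c31_31 : BCert := ⟨31, 31, 4, 3,
  .node false 4 (.leaf [135169, 135170, 131077]) (.leaf [135177, 135178, 131077]) (.leaf [135185, 135186, 131077]) (.leaf [135193, 135194, 131077]) (.leaf [135201, 135202, 131077])⟩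

theorem c3_5_ok : c3_5.ok = true := by decide +kernel
theorem c3_13_ok : c3_13.ok = true := by decide +kernel
theorem c3_21_ok : c3_21.ok = true := by decide +kernel
theorem c3_29_ok : c3_29.ok = true := by decide +kernel
theorem c5_6_ok : c5_6.ok = true := by decide +kernel
theorem c5_17_ok : c5_17.ok = true := by decide +kernel
theorem c5_19_ok : c5_19.ok = true := by decide +kernel
theorem c5_25_ok : c5_25.ok = true := by decide +kernel
theorem c5_27_ok : c5_27.ok = true := by decide +kernel
theorem c6_4_ok : c6_4.ok = true := by decide +kernel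
theorem c6_5_ok : c6_5.ok = true := by decide +kernel
theorem c6_13_ok : c6_13.ok = true := by decide +kernel
theorem c6_19_ok : c6_19.ok = true := by decide +kernel
theorem c6_21_ok : c6_21.ok = true := by decide +kernel
theorem c6_27_ok : c6_27.ok = true := by decide +kernel
theorem c6_29_ok : c6_29.ok = true := by decide +kernel
theorem c7_6_ok : c7_6.ok = true := by decide +kernel
theorem c7_7_ok : c7_7.ok = true := by decide +kernel
theorem c7_15_ok : c7_15.ok = true := by decide +kernel
theorem c7_23_ok : c7_23.ok = true := by decide +kernel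
theorem c7_31_ok : c7_31.ok = true := by decide +kernel
theorem c10_13_ok : c10_13.ok = true := by decide +kernel
theorem c10_29_ok : c10_29.ok = true := by decide +kernel
theorem c11_10_ok : c11_10.ok = true := by decide +kernel
theorem c11_11_ok : c11_11.ok = true := by decide +kernel
theorem c12_25_ok : c12_25.ok = true := by decide +kernel
theorem c12_27_ok : c12_27.ok = true := by decide +kernel
theorem c13_12_ok : c13_12.ok = true := by decide +kernel
theorem c15_15_ok : c15_15.ok = true := by decide +kernel
theorem c15_31_ok : c15_31.ok = true := by decide +kernel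
theorem c17_20_ok : c17_20.ok = true := by decide +kernel
theorem c18_21_ok : c18_21.ok = true := by decide +kernel
theorem c18_29_ok : c18_29.ok = true := by decide +kernel
theorem c19_18_ok : c19_18.ok = true := by decide +kernel
theorem c20_16_ok : c20_16.ok = true := by decide +kernel
theorem c20_17_ok : c20_17.ok = true := by decide +kernel
theorem c20_19_ok : c20_19.ok = true := by decide +kernel
theorem c20_25_ok : c20_25.ok = true := by decide +kernel
theorem c20_27_ok : c20_27.ok = true := by decide +kernel
theorem c21_20_ok : c21_20.ok = true := by decide +kernel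
theorem c23_23_ok : c23_23.ok = true := by decide +kernel
theorem c23_31_ok : c23_31.ok = true := by decide +kernel
theorem c25_24_ok : c25_24.ok = true := by decide +kernel
theorem c27_27_ok : c27_27.ok = true := by decide +kernel
theorem c27_31_ok : c27_31.ok = true := by decide +kernel
theorem c29_29_ok : c29_29.ok = true := by decide +kernel
theorem c29_31_ok : c29_31.ok = true := by decide +kernel
theorem c30_30_ok : c30_30.ok = true := by decide +kernel
theorem c30_31_ok : c30_31.ok = true := by decide +kernel
theorem c31_31_ok : c31_31.ok = true := by decide +kernel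

def cases : List (ℕ × ℕ) := [(3, 5), (3, 13), (3, 21), (3, 29), (5, 6), (5, 17), (5, 19), (5, 25), (5, 27), (6, 4), (6, 5), (6, 13), (6, 19), (6, 21), (6, 27), (6, 29), (7, 6), (7, 7), (7, 15), (7, 23), (7, 31), (10, 13), (10, 29), (11, 10), (11, 11), (12, 25), (12, 27), (13, 12), (15, 15), (15, 31), (17, 20), (18, 21), (18, 29), (19, 18), (20, 16), (20, 17), (20, 19), (20, 25), (20, 27), (21, 20), (23, 23), (23, 31), (25, 24), (27, 27), (27, 31), (29, 29), (29, 31), (30, 30), (30, 31), (31, 31)]

theorem all : ∀ p ∈ cases, BddM p.1 p.2 := by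
  intro p hp
  simp only [cases, List.mem_cons, List.not_mem_nil, or_false] at hp
  rcases hp with rfl | rfl | rfl | rfl | rfl | rfl | rfl | rfl | rfl | rfl | rfl | rfl | rfl | rfl | rfl | rfl | rfl | rfl | rfl | rfl | rfl | rfl | rfl | rfl | rfl | rfl | rfl | rfl | rfl | rfl | rfl | rfl | rfl | rfl | rfl | rfl | rfl | rfl | rfl | rfl | rfl | rfl | rfl | rfl | rfl | rfl | rfl | rfl | rfl | rfl
  · exact BCert.bdd c3_5_ok
  · exact BCert.bdd c3_13_ok
  · exact BCert.bdd c3_21_ok
  · exact BCert.bdd c3_29_ok
  · exact BCert.bdd c5_6_ok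
  · exact BCert.bdd c5_17_ok
  · exact BCert.bdd c5_19_ok
  · exact BCert.bdd c5_25_ok
  · exact BCert.bdd c5_27_ok
  · exact BCert.bdd c6_4_ok
  · exact BCert.bdd c6_5_ok
  · exact BCert.bdd c6_13_ok
  · exact BCert.bdd c6_19_ok
  · exact BCert.bdd c6_21_ok
  · exact BCert.bdd c6_27_ok
  · exact BCert.bdd c6_29_ok
  · exact BCert.bdd c7_6_ok
  · exact BCert.bdd c7_7_ok
  · exact BCert.bdd c7_15_ok
  · exact BCert.bdd c7_23_ok
  · exact BCert.bdd c7_31_ok
  · exact BCert.bdd c10_13_ok
  · exact BCert.bdd c10_29_ok
  · exact BCert.bdd c11_10_ok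
  · exact BCert.bdd c11_11_ok
  · exact BCert.bdd c12_25_ok
  · exact BCert.bdd c12_27_ok
  · exact BCert.bdd c13_12_ok
  · exact BCert.bdd c15_15_ok
  · exact BCert.bdd c15_31_ok
  · exact BCert.bdd c17_20_ok
  · exact BCert.bdd c18_21_ok
  · exact BCert.bdd c18_29_ok
  · exact BCert.bdd c19_18_ok
  · exact BCert.bdd c20_16_ok
  · exact BCert.bdd c20_17_ok
  · exact BCert.bdd c20_19_ok
  · exact BCert.bdd c20_25_ok
  · exact BCert.bdd c20_27_ok
  · exact BCert.bdd c21_20_ok
  · exact BCert.bdd c23_23_ok
  · exact BCert.bdd c23_31_ok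
  · exact BCert.bdd c25_24_ok
  · exact BCert.bdd c27_27_ok
  · exact BCert.bdd c27_31_ok
  · exact BCert.bdd c29_29_ok
  · exact BCert.bdd c29_31_ok
  · exact BCert.bdd c30_30_ok
  · exact BCert.bdd c30_31_ok
  · exact BCert.bdd c31_31_ok

end Pool.Agent.H299.RDE.B07
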