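import Pool.Agent.H299.RDE.Bdd

set_option linter.all false
set_option maxRecDepth 100000

namespace Pool.Agent.H299.RDE.B08

open Pool.Agent.H299.RDE

def z : Tree := .leaf []

def c2_17 : BCert := ⟨2, 17, 7, 9,
  .leaf [135177, 136201, 137225, 138249, 135170, 136194, 137218, 138274, 131077]⟩

def c3_2 : BCert := ⟨3, 2, 5, 5,
  .node false 5 (.leaf [135176, 136193, 136202, 135179, 131077]) (.leaf [136201, 136202, 131077]) z z z⟩

def c3_3 : BCert := ⟨3, 3, 4, 3,
  .node false 4 (.leaf [135169, 135170, 131077]) (.leaf [135177, 135178, 131077]) z z z⟩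

def c3_7 : BCert := ⟨3, 7, 4, 3,
  .node false 4 (.leaf [135169, 135170, 131077]) (.leaf [135177, 135178, 131077]) z z z⟩

def c3_11 : BCert := ⟨3, 11, 4, 3,
  .node false 4 (.leaf [135169, 135170, 131077]) (.leaf [135177, 135178, 131077]) z z z⟩

def c3_15 : BCert := ⟨3, 15, 4, 3,
  .node false 4 (.leaf [135169, 135170, 131077]) (.leaf [135177, 135178, 131077]) z z z⟩

def c3_19 : BCert := ⟨3, 19, 4, 3,
  .node false 4 (.leaf [135169, 135170, 131077]) (.leaf [135177, 135178, 131077]) z z z⟩

def c3_23 : BCert := ⟨3, 23, 4, 3,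
  .node false 4 (.leaf [135169, 135170, 131077]) (.leaf [135177, 135178, 131077]) z z z⟩

def c3_27 : BCert := ⟨3, 27, 4, 3,
  .node false 4 (.leaf [135169, 135170, 131077]) (.leaf [135177, 135178, 131077]) z z z⟩

def c3_31 : BCert := ⟨3, 31, 4, 3,
  .node false 4 (.leaf [135169, 135170, 131077]) (.leaf [135177, 135178, 131077]) z z z⟩

def c5_4 : BCert := ⟨5, 4, 6, 5,
  .node false 6 (.leaf [135184, 137217, 137234, 135187, 131077]) z (.leaf [137233, 137234, 131077]) z z⟩

def c5_5 : BCert := ⟨5, 5, 4, 3,
  .node false 4 (.leaf [135169, 135170, 131077]) z (.leaf [135185, 135186, 131077]) z z⟩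

def c5_7 : BCert := ⟨5, 7, 4, 3,
  .node false 4 (.leaf [135169, 135170, 131077]) z (.leaf [135185, 135186, 131077]) z z⟩

def c9_8 : BCert := ⟨9, 8, 7, 5,
  .node false 7 (.leaf [135192, 138241, 138266, 135195, 131077]) z z (.leaf [138265, 138266, 131077]) z⟩

def c11_15 : BCert := ⟨11, 15, 4, 3,
  .node false 4 (.leaf [135169, 135170, 131077]) (.leaf [135177, 135178, 131077]) z (.leaf [135193, 135194, 131077]) z⟩

def c11_27 : BCert := ⟨11, 27, 4, 3,
  .node false 4 (.leaf [135169, 135170, 131077]) (.leaf [135177, 135178, 131077]) z (.leaf [135193, 135194, 131077]) z⟩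

def c11_31 : BCert := ⟨11, 31, 4, 3,
  .node false 4 (.leaf [135169, 135170, 131077]) (.leaf [135177, 135178, 131077]) z (.leaf [135193, 135194, 131077]) z⟩

def c13_13 : BCert := ⟨13, 13, 4, 3,
  .node false 4 (.leaf [135169, 135170, 131077]) z (.leaf [135185, 135186, 131077]) (.leaf [135193, 135194, 131077]) z⟩

def c13_15 : BCert := ⟨13, 15, 4, 3,
  .node false 4 (.leaf [135169, 135170, 131077]) z (.leaf [135185, 135186, 131077]) (.leaf [135193, 135194, 131077]) z⟩

def c13_29 : BCert := ⟨13, 29, 4, 3,
  .node false 4 (.leaf [135169, 135170, 131077]) z (.leaf [135185, 135186, 131077]) (.leaf [135193, 135194, 131077]) z⟩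

def c13_31 : BCert := ⟨13, 31, 4, 3,
  .node false 4 (.leaf [135169, 135170, 131077]) z (.leaf [135185, 135186, 131077]) (.leaf [135193, 135194, 131077]) z⟩

def c14_14 : BCert := ⟨14, 14, 4, 3,
  .node false 4 z (.leaf [135177, 135178, 131077]) (.leaf [135185, 135186, 131077]) (.leaf [135193, 135194, 131077]) z⟩

def c14_15 : BCert := ⟨14, 15, 4, 3,
  .node false 4 z (.leaf [135177, 135178, 131077]) (.leaf [135185, 135186, 131077]) (.leaf [135193, 135194, 131077]) z⟩

def c14_30 : BCert := ⟨14, 30, 4, 3,
  .node false 4 z (.leaf [135177, 135178, 131077]) (.leaf [135185, 135186, 131077]) (.leaf [135193, 135194, 131077]) z⟩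

def c14_31 : BCert := ⟨14, 31, 4, 3,
  .node false 4 z (.leaf [135177, 135178, 131077]) (.leaf [135185, 135186, 131077]) (.leaf [135193, 135194, 131077]) z⟩

def c17_16 : BCert := ⟨17, 16, 8, 5,
  .node false 8 (.leaf [135200, 139265, 139298, 135203, 131077]) z z z (.leaf [139297, 139298, 131077])⟩

def c19_19 : BCert := ⟨19, 19, 4, 3,
  .node false 4 (.leaf [135169, 135170, 131077]) (.leaf [135177, 135178, 131077]) z z (.leaf [135201, 135202, 131077])⟩

def c19_23 : BCert := ⟨19, 23, 4, 3,
  .node false 4 (.leaf [135169, 135170, 131077]) (.leaf [135177, 135178, 131077]) z z (.leaf [135201, 135202, 131077])⟩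

def c19_27 : BCert := ⟨19, 27, 4, 3,
  .node false 4 (.leaf [135169, 135170, 131077]) (.leaf [135177, 135178, 131077]) z z (.leaf [135201, 135202, 131077])⟩

def c19_31 : BCert := ⟨19, 31, 4, 3,
  .node false 4 (.leaf [135169, 135170, 131077]) (.leaf [135177, 135178, 131077]) z z (.leaf [135201, 135202, 131077])⟩

def c21_21 : BCert := ⟨21, 21, 4, 3,
  .node false 4 (.leaf [135169, 135170, 131077]) z (.leaf [135185, 135186, 131077]) z (.leaf [135201, 135202, 131077])⟩

def c21_23 : BCert := ⟨21, 23, 4, 3,
  .node false 4 (.leaf [135169, 135170, 131077]) z (.leaf [135185, 135186, 131077]) z (.leaf [135201, 135202, 131077])⟩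

def c21_29 : BCert := ⟨21, 29, 4, 3,
  .node false 4 (.leaf [135169, 135170, 131077]) z (.leaf [135185, 135186, 131077]) z (.leaf [135201, 135202, 131077])⟩

def c21_31 : BCert := ⟨21, 31, 4, 3,
  .node false 4 (.leaf [135169, 135170, 131077]) z (.leaf [135185, 135186, 131077]) z (.leaf [135201, 135202, 131077])⟩

def c22_22 : BCert := ⟨22, 22, 4, 3,
  .node false 4 z (.leaf [135177, 135178, 131077]) (.leaf [135185, 135186, 131077]) z (.leaf [135201, 135202, 131077])⟩

def c22_23 : BCert := ⟨22, 23, 4, 3,
  .node false 4 z (.leaf [135177, 135178, 131077]) (.leaf [135185, 135186, 131077]) z (.leaf [135201, 135202, 131077])⟩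

def c22_30 : BCert := ⟨22, 30, 4, 3,
  .node false 4 z (.leaf [135177, 135178, 131077]) (.leaf [135185, 135186, 131077]) z (.leaf [135201, 135202, 131077])⟩

def c22_31 : BCert := ⟨22, 31, 4, 3,
  .node false 4 z (.leaf [135177, 135178, 131077]) (.leaf [135185, 135186, 131077]) z (.leaf [135201, 135202, 131077])⟩

def c25_25 : BCert := ⟨25, 25, 4, 3,
  .node false 4 (.leaf [135169, 135170, 131077]) z z (.leaf [135193, 135194, 131077]) (.leaf [135201, 135202, 131077])⟩

def c25_27 : BCert := ⟨25, 27, 4, 3,
  .node false 4 (.leaf [135169, 135170, 131077]) z z (.leaf [135193, 135194, 131077]) (.leaf [135201, 135202, 131077])⟩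

def c25_29 : BCert := ⟨25, 29, 4, 3,
  .node false 4 (.leaf [135169, 135170, 131077]) z z (.leaf [135193, 135194, 131077]) (.leaf [135201, 135202, 131077])⟩

def c25_31 : BCert := ⟨25, 31, 4, 3,
  .node false 4 (.leaf [135169, 135170, 131077]) z z (.leaf [135193, 135194, 131077]) (.leaf [135201, 135202, 131077])⟩

def c26_26 : BCert := ⟨26, 26, 4, 3,
  .node false 4 z (.leaf [135177, 135178, 131077]) z (.leaf [135193, 135194, 131077]) (.leaf [135201, 135202, 131077])⟩

def c26_27 : BCert := ⟨26, 27, 4, 3,
  .node false 4 z (.leaf [135177, 135178, 131077]) z (.leaf [135193, 135194, 131077]) (.leaf [135201, 135202, 131077])⟩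

def c26_30 : BCert := ⟨26, 30, 4, 3,
  .node false 4 z (.leaf [135177, 135178, 131077]) z (.leaf [135193, 135194, 131077]) (.leaf [135201, 135202, 131077])⟩

def c26_31 : BCert := ⟨26, 31, 4, 3,
  .node false 4 z (.leaf [135177, 135178, 131077]) z (.leaf [135193, 135194, 131077]) (.leaf [135201, 135202, 131077])⟩

def c28_28 : BCert := ⟨28, 28, 4, 3,
  .node false 4 z z (.leaf [135185, 135186, 131077]) (.leaf [135193, 135194, 131077]) (.leaf [135201, 135202, 131077])⟩

def c28_29 : BCert := ⟨28, 29, 4, 3,
  .node false 4 z z (.leaf [135185, 135186, 131077]) (.leaf [135193, 135194, 131077]) (.leaf [135201, 135202, 131077])⟩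

def c28_30 : BCert := ⟨28, 30, 4, 3,
  .node false 4 z z (.leaf [135185, 135186, 131077]) (.leaf [135193, 135194, 131077]) (.leaf [135201, 135202, 131077])⟩

def c28_31 : BCert := ⟨28, 31, 4, 3,
  .node false 4 z z (.leaf [135185, 135186, 131077]) (.leaf [135193, 135194, 131077]) (.leaf [135201, 135202, 131077])⟩

theorem c2_17_ok : c2_17.ok = true := by decide +kernel
theorem c3_2_ok : c3_2.ok = true := by decide +kernel
theorem c3_3_ok : c3_3.ok = true := by decide +kernel
theorem c3_7_ok : c3_7.ok = true := by decide +kernel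
theorem c3_11_ok : c3_11.ok = true := by decide +kernel
theorem c3_15_ok : c3_15.ok = true := by decide +kernel
theorem c3_19_ok : c3_19.ok = true := by decide +kernel
theorem c3_23_ok : c3_23.ok = true := by decide +kernel
theorem c3_27_ok : c3_27.ok = true := by decide +kernel
theorem c3_31_ok : c3_31.ok = true := by decide +kernel
theorem c5_4_ok : c5_4.ok = true := by decide +kernel
theorem c5_5_ok : c5_5.ok = true := by decide +kernel
theorem c5_7_ok : c5_7.ok = true := by decide +kernel
theorem c9_8_ok : c9_8.ok = true := by decide +kernel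
theorem c11_15_ok : c11_15.ok = true := by decide +kernel
theorem c11_27_ok : c11_27.ok = true := by decide +kernel
theorem c11_31_ok : c11_31.ok = true := by decide +kernel
theorem c13_13_ok : c13_13.ok = true := by decide +kernel
theorem c13_15_ok : c13_15.ok = true := by decide +kernel
theorem c13_29_ok : c13_29.ok = true := by decide +kernel
theorem c13_31_ok : c13_31.ok = true := by decide +kernel
theorem c14_14_ok : c14_14.ok = true := by decide +kernel
theorem c14_15_ok : c14_15.ok = true := by decide +kernel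
theorem c14_30_ok : c14_30.ok = true := by decide +kernel
theorem c14_31_ok : c14_31.ok = true := by decide +kernel
theorem c17_16_ok : c17_16.ok = true := by decide +kernel
theorem c19_19_ok : c19_19.ok = true := by decide +kernel
theorem c19_23_ok : c19_23.ok = true := by decide +kernel
theorem c19_27_ok : c19_27.ok = true := by decide +kernel
theorem c19_31_ok : c19_31.ok = true := by decide +kernel
theorem c21_21_ok : c21_21.ok = true := by decide +kernel
theorem c21_23_ok : c21_23.ok = true := by decide +kernel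
theorem c21_29_ok : c21_29.ok = true := by decide +kernel
theorem c21_31_ok : c21_31.ok = true := by decide +kernel
theorem c22_22_ok : c22_22.ok = true := by decide +kernel
theorem c22_23_ok : c22_23.ok = true := by decide +kernel
theorem c22_30_ok : c22_30.ok = true := by decide +kernel
theorem c22_31_ok : c22_31.ok = true := by decide +kernel
theorem c25_25_ok : c25_25.ok = true := by decide +kernel
theorem c25_27_ok : c25_27.ok = true := by decide +kernel
theorem c25_29_ok : c25_29.ok = true := by decide +kernel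
theorem c25_31_ok : c25_31.ok = true := by decide +kernel
theorem c26_26_ok : c26_26.ok = true := by decide +kernel
theorem c26_27_ok : c26_27.ok = true := by decide +kernel
theorem c26_30_ok : c26_30.ok = true := by decide +kernel
theorem c26_31_ok : c26_31.ok = true := by decide +kernel
theorem c28_28_ok : c28_28.ok = true := by decide +kernel
theorem c28_29_ok : c28_29.ok = true := by decide +kernel
theorem c28_30_ok : c28_30.ok = true := by decide +kernel
theorem c28_31_ok : c28_31.ok = true := by decide +kernel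

def cases : List (ℕ × ℕ) := [(2, 17), (3, 2), (3, 3), (3, 7), (3, 11), (3, 15), (3, 19), (3, 23), (3, 27), (3, 31), (5, 4), (5, 5), (5, 7), (9, 8), (11, 15), (11, 27), (11, 31), (13, 13), (13, 15), (13, 29), (13, 31), (14, 14), (14, 15), (14, 30), (14, 31), (17, 16), (19, 19), (19, 23), (19, 27), (19, 31), (21, 21), (21, 23), (21, 29), (21, 31), (22, 22), (22, 23), (22, 30), (22, 31), (25, 25), (25, 27), (25, 29), (25, 31), (26, 26), (26, 27), (26, 30), (26, 31), (28, 28), (28, 29), (28, 30), (28, 31)]

theorem all : ∀ p ∈ cases, BddM p.1 p.2 := by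
  intro p hp
  simp only [cases, List.mem_cons, List.not_mem_nil, or_false] at hp
  rcases hp with rfl | rfl | rfl | rfl | rfl | rfl | rfl | rfl | rfl | rfl | rfl | rfl | rfl | rfl | rfl | rfl | rfl | rfl | rfl | rfl | rfl | rfl | rfl | rfl | rfl | rfl | rfl | rfl | rfl | rfl | rfl | rfl | rfl | rfl | rfl | rfl | rfl | rfl | rfl | rfl | rfl | rfl | rfl | rfl | rfl | rfl | rfl | rfl | rfl | rfl
  · exact BCert.bdd c2_17_ok
  · exact BCert.bdd c3_2_ok
  · exact BCert.bdd c3_3_ok
  · exact BCert.bdd c3_7_ok
  · exact BCert.bdd c3_11_ok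
  · exact BCert.bdd c3_15_ok
  · exact BCert.bdd c3_19_ok
  · exact BCert.bdd c3_23_ok
  · exact BCert.bdd c3_27_ok
  · exact BCert.bdd c3_31_ok
  · exact BCert.bdd c5_4_ok
  · exact BCert.bdd c5_5_ok
  · exact BCert.bdd c5_7_ok
  · exact BCert.bdd c9_8_ok
  · exact BCert.bdd c11_15_ok
  · exact BCert.bdd c11_27_ok
  · exact BCert.bdd c11_31_ok
  · exact BCert.bdd c13_13_ok
  · exact BCert.bdd c13_15_ok
  · exact BCert.bdd c13_29_ok
  · exact BCert.bdd c13_31_ok
  · exact BCert.bdd c14_14_ok
  · exact BCert.bdd c14_15_ok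
  · exact BCert.bdd c14_30_ok
  · exact BCert.bdd c14_31_ok
  · exact BCert.bdd c17_16_ok
  · exact BCert.bdd c19_19_ok
  · exact BCert.bdd c19_23_ok
  · exact BCert.bdd c19_27_ok
  · exact BCert.bdd c19_31_ok
  · exact BCert.bdd c21_21_ok
  · exact BCert.bdd c21_23_ok
  · exact BCert.bdd c21_29_ok
  · exact BCert.bdd c21_31_ok
  · exact BCert.bdd c22_22_ok
  · exact BCert.bdd c22_23_ok
  · exact BCert.bdd c22_30_ok
  · exact BCert.bdd c22_31_ok
  · exact BCert.bdd c25_25_ok
  · exact BCert.bdd c25_27_ok
  · exact BCert.bdd c25_29_ok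
  · exact BCert.bdd c25_31_ok
  · exact BCert.bdd c26_26_ok
  · exact BCert.bdd c26_27_ok
  · exact BCert.bdd c26_30_ok
  · exact BCert.bdd c26_31_ok
  · exact BCert.bdd c28_28_ok
  · exact BCert.bdd c28_29_ok
  · exact BCert.bdd c28_30_ok
  · exact BCert.bdd c28_31_ok

end Pool.Agent.H299.RDE.B08
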