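import Pool.Agent.H299.RDE.Bdd

set_option linter.all false
set_option maxRecDepth 100000

namespace Pool.Agent.H299.RDE.B09

open Pool.Agent.H299.RDE

def z : Tree := .leaf []

def c5_13 : BCert := ⟨5, 13, 4, 3,
  .node false 4 (.leaf [135169, 135170, 131077]) z (.leaf [135185, 135186, 131077]) z z⟩

def c5_15 : BCert := ⟨5, 15, 4, 3,
  .node false 4 (.leaf [135169, 135170, 131077]) z (.leaf [135185, 135186, 131077]) z z⟩

def c5_21 : BCert := ⟨5, 21, 4, 3,
  .node false 4 (.leaf [135169, 135170, 131077]) z (.leaf [135185, 135186, 131077]) z z⟩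

def c5_23 : BCert := ⟨5, 23, 4, 3,
  .node false 4 (.leaf [135169, 135170, 131077]) z (.leaf [135185, 135186, 131077]) z z⟩

def c5_29 : BCert := ⟨5, 29, 4, 3,
  .node false 4 (.leaf [135169, 135170, 131077]) z (.leaf [135185, 135186, 131077]) z z⟩

def c5_31 : BCert := ⟨5, 31, 4, 3,
  .node false 4 (.leaf [135169, 135170, 131077]) z (.leaf [135185, 135186, 131077]) z z⟩

def c6_6 : BCert := ⟨6, 6, 4, 3,
  .node false 4 z (.leaf [135177, 135178, 131077]) (.leaf [135185, 135186, 131077]) z z⟩

def c6_7 : BCert := ⟨6, 7, 4, 3,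
  .node false 4 z (.leaf [135177, 135178, 131077]) (.leaf [135185, 135186, 131077]) z z⟩

def c6_14 : BCert := ⟨6, 14, 4, 3,
  .node false 4 z (.leaf [135177, 135178, 131077]) (.leaf [135185, 135186, 131077]) z z⟩

def c6_15 : BCert := ⟨6, 15, 4, 3,
  .node false 4 z (.leaf [135177, 135178, 131077]) (.leaf [135185, 135186, 131077]) z z⟩

def c6_22 : BCert := ⟨6, 22, 4, 3,
  .node false 4 z (.leaf [135177, 135178, 131077]) (.leaf [135185, 135186, 131077]) z z⟩

def c6_23 : BCert := ⟨6, 23, 4, 3,
  .node false 4 z (.leaf [135177, 135178, 131077]) (.leaf [135185, 135186, 131077]) z z⟩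

def c6_30 : BCert := ⟨6, 30, 4, 3,
  .node false 4 z (.leaf [135177, 135178, 131077]) (.leaf [135185, 135186, 131077]) z z⟩

def c6_31 : BCert := ⟨6, 31, 4, 3,
  .node false 4 z (.leaf [135177, 135178, 131077]) (.leaf [135185, 135186, 131077]) z z⟩

def c9_9 : BCert := ⟨9, 9, 4, 3,
  .node false 4 (.leaf [135169, 135170, 131077]) z z (.leaf [135193, 135194, 131077]) z⟩

def c9_11 : BCert := ⟨9, 11, 4, 3,
  .node false 4 (.leaf [135169, 135170, 131077]) z z (.leaf [135193, 135194, 131077]) z⟩

def c9_13 : BCert := ⟨9, 13, 4, 3,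
  .node false 4 (.leaf [135169, 135170, 131077]) z z (.leaf [135193, 135194, 131077]) z⟩

def c9_15 : BCert := ⟨9, 15, 4, 3,
  .node false 4 (.leaf [135169, 135170, 131077]) z z (.leaf [135193, 135194, 131077]) z⟩

def c9_25 : BCert := ⟨9, 25, 4, 3,
  .node false 4 (.leaf [135169, 135170, 131077]) z z (.leaf [135193, 135194, 131077]) z⟩

def c9_27 : BCert := ⟨9, 27, 4, 3,
  .node false 4 (.leaf [135169, 135170, 131077]) z z (.leaf [135193, 135194, 131077]) z⟩

def c9_29 : BCert := ⟨9, 29, 4, 3,
  .node false 4 (.leaf [135169, 135170, 131077]) z z (.leaf [135193, 135194, 131077]) z⟩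

def c9_31 : BCert := ⟨9, 31, 4, 3,
  .node false 4 (.leaf [135169, 135170, 131077]) z z (.leaf [135193, 135194, 131077]) z⟩

def c10_10 : BCert := ⟨10, 10, 4, 3,
  .node false 4 z (.leaf [135177, 135178, 131077]) z (.leaf [135193, 135194, 131077]) z⟩

def c10_11 : BCert := ⟨10, 11, 4, 3,
  .node false 4 z (.leaf [135177, 135178, 131077]) z (.leaf [135193, 135194, 131077]) z⟩

def c10_14 : BCert := ⟨10, 14, 4, 3,
  .node false 4 z (.leaf [135177, 135178, 131077]) z (.leaf [135193, 135194, 131077]) z⟩

def c10_15 : BCert := ⟨10, 15, 4, 3,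
  .node false 4 z (.leaf [135177, 135178, 131077]) z (.leaf [135193, 135194, 131077]) z⟩

def c10_26 : BCert := ⟨10, 26, 4, 3,
  .node false 4 z (.leaf [135177, 135178, 131077]) z (.leaf [135193, 135194, 131077]) z⟩

def c10_27 : BCert := ⟨10, 27, 4, 3,
  .node false 4 z (.leaf [135177, 135178, 131077]) z (.leaf [135193, 135194, 131077]) z⟩

def c10_30 : BCert := ⟨10, 30, 4, 3,
  .node false 4 z (.leaf [135177, 135178, 131077]) z (.leaf [135193, 135194, 131077]) z⟩

def c10_31 : BCert := ⟨10, 31, 4, 3,
  .node false 4 z (.leaf [135177, 135178, 131077]) z (.leaf [135193, 135194, 131077]) z⟩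

def c12_12 : BCert := ⟨12, 12, 4, 3,
  .node false 4 z z (.leaf [135185, 135186, 131077]) (.leaf [135193, 135194, 131077]) z⟩

def c12_13 : BCert := ⟨12, 13, 4, 3,
  .node false 4 z z (.leaf [135185, 135186, 131077]) (.leaf [135193, 135194, 131077]) z⟩

def c12_14 : BCert := ⟨12, 14, 4, 3,
  .node false 4 z z (.leaf [135185, 135186, 131077]) (.leaf [135193, 135194, 131077]) z⟩

def c12_15 : BCert := ⟨12, 15, 4, 3,
  .node false 4 z z (.leaf [135185, 135186, 131077]) (.leaf [135193, 135194, 131077]) z⟩

def c12_28 : BCert := ⟨12, 28, 4, 3,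
  .node false 4 z z (.leaf [135185, 135186, 131077]) (.leaf [135193, 135194, 131077]) z⟩

def c12_29 : BCert := ⟨12, 29, 4, 3,
  .node false 4 z z (.leaf [135185, 135186, 131077]) (.leaf [135193, 135194, 131077]) z⟩

def c12_30 : BCert := ⟨12, 30, 4, 3,
  .node false 4 z z (.leaf [135185, 135186, 131077]) (.leaf [135193, 135194, 131077]) z⟩

def c12_31 : BCert := ⟨12, 31, 4, 3,
  .node false 4 z z (.leaf [135185, 135186, 131077]) (.leaf [135193, 135194, 131077]) z⟩

def c17_17 : BCert := ⟨17, 17, 4, 3,
  .node false 4 (.leaf [135169, 135170, 131077]) z z z (.leaf [135201, 135202, 131077])⟩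

def c17_19 : BCert := ⟨17, 19, 4, 3,
  .node false 4 (.leaf [135169, 135170, 131077]) z z z (.leaf [135201, 135202, 131077])⟩

def c17_21 : BCert := ⟨17, 21, 4, 3,
  .node false 4 (.leaf [135169, 135170, 131077]) z z z (.leaf [135201, 135202, 131077])⟩

def c17_23 : BCert := ⟨17, 23, 4, 3,
  .node false 4 (.leaf [135169, 135170, 131077]) z z z (.leaf [135201, 135202, 131077])⟩

def c17_25 : BCert := ⟨17, 25, 4, 3,
  .node false 4 (.leaf [135169, 135170, 131077]) z z z (.leaf [135201, 135202, 131077])⟩

def c17_27 : BCert := ⟨17, 27, 4, 3,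
  .node false 4 (.leaf [135169, 135170, 131077]) z z z (.leaf [135201, 135202, 131077])⟩

def c17_29 : BCert := ⟨17, 29, 4, 3,
  .node false 4 (.leaf [135169, 135170, 131077]) z z z (.leaf [135201, 135202, 131077])⟩

def c17_31 : BCert := ⟨17, 31, 4, 3,
  .node false 4 (.leaf [135169, 135170, 131077]) z z z (.leaf [135201, 135202, 131077])⟩

def c18_18 : BCert := ⟨18, 18, 4, 3,
  .node false 4 z (.leaf [135177, 135178, 131077]) z z (.leaf [135201, 135202, 131077])⟩

def c18_19 : BCert := ⟨18, 19, 4, 3,
  .node false 4 z (.leaf [135177, 135178, 131077]) z z (.leaf [135201, 135202, 131077])⟩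

def c18_22 : BCert := ⟨18, 22, 4, 3,
  .node false 4 z (.leaf [135177, 135178, 131077]) z z (.leaf [135201, 135202, 131077])⟩

def c18_23 : BCert := ⟨18, 23, 4, 3,
  .node false 4 z (.leaf [135177, 135178, 131077]) z z (.leaf [135201, 135202, 131077])⟩

theorem c5_13_ok : c5_13.ok = true := by decide +kernel
theorem c5_15_ok : c5_15.ok = true := by decide +kernel
theorem c5_21_ok : c5_21.ok = true := by decide +kernel
theorem c5_23_ok : c5_23.ok = true := by decide +kernel
theorem c5_29_ok : c5_29.ok = true := by decide +kernel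
theorem c5_31_ok : c5_31.ok = true := by decide +kernel
theorem c6_6_ok : c6_6.ok = true := by decide +kernel
theorem c6_7_ok : c6_7.ok = true := by decide +kernel
theorem c6_14_ok : c6_14.ok = true := by decide +kernel
theorem c6_15_ok : c6_15.ok = true := by decide +kernel
theorem c6_22_ok : c6_22.ok = true := by decide +kernel
theorem c6_23_ok : c6_23.ok = true := by decide +kernel
theorem c6_30_ok : c6_30.ok = true := by decide +kernel
theorem c6_31_ok : c6_31.ok = true := by decide +kernel
theorem c9_9_ok : c9_9.ok = true := by decide +kernel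
theorem c9_11_ok : c9_11.ok = true := by decide +kernel
theorem c9_13_ok : c9_13.ok = true := by decide +kernel
theorem c9_15_ok : c9_15.ok = true := by decide +kernel
theorem c9_25_ok : c9_25.ok = true := by decide +kernel
theorem c9_27_ok : c9_27.ok = true := by decide +kernel
theorem c9_29_ok : c9_29.ok = true := by decide +kernel
theorem c9_31_ok : c9_31.ok = true := by decide +kernel
theorem c10_10_ok : c10_10.ok = true := by decide +kernel
theorem c10_11_ok : c10_11.ok = true := by decide +kernel
theorem c10_14_ok : c10_14.ok = true := by decide +kernel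
theorem c10_15_ok : c10_15.ok = true := by decide +kernel
theorem c10_26_ok : c10_26.ok = true := by decide +kernel
theorem c10_27_ok : c10_27.ok = true := by decide +kernel
theorem c10_30_ok : c10_30.ok = true := by decide +kernel
theorem c10_31_ok : c10_31.ok = true := by decide +kernel
theorem c12_12_ok : c12_12.ok = true := by decide +kernel
theorem c12_13_ok : c12_13.ok = true := by decide +kernel
theorem c12_14_ok : c12_14.ok = true := by decide +kernel
theorem c12_15_ok : c12_15.ok = true := by decide +kernel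
theorem c12_28_ok : c12_28.ok = true := by decide +kernel
theorem c12_29_ok : c12_29.ok = true := by decide +kernel
theorem c12_30_ok : c12_30.ok = true := by decide +kernel
theorem c12_31_ok : c12_31.ok = true := by decide +kernel
theorem c17_17_ok : c17_17.ok = true := by decide +kernel
theorem c17_19_ok : c17_19.ok = true := by decide +kernel
theorem c17_21_ok : c17_21.ok = true := by decide +kernel
theorem c17_23_ok : c17_23.ok = true := by decide +kernel
theorem c17_25_ok : c17_25.ok = true := by decide +kernel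
theorem c17_27_ok : c17_27.ok = true := by decide +kernel
theorem c17_29_ok : c17_29.ok = true := by decide +kernel
theorem c17_31_ok : c17_31.ok = true := by decide +kernel
theorem c18_18_ok : c18_18.ok = true := by decide +kernel
theorem c18_19_ok : c18_19.ok = true := by decide +kernel
theorem c18_22_ok : c18_22.ok = true := by decide +kernel
theorem c18_23_ok : c18_23.ok = true := by decide +kernel

def cases : List (ℕ × ℕ) := [(5, 13), (5, 15), (5, 21), (5, 23), (5, 29), (5, 31), (6, 6), (6, 7), (6, 14), (6, 15), (6, 22), (6, 23), (6, 30), (6, 31), (9, 9), (9, 11), (9, 13), (9, 15), (9, 25), (9, 27), (9, 29), (9, 31), (10, 10), (10, 11), (10, 14), (10, 15), (10, 26), (10, 27), (10, 30), (10, 31), (12, 12), (12, 13), (12, 14), (12, 15), (12, 28), (12, 29), (12, 30), (12, 31), (17, 17), (17, 19), (17, 21), (17, 23), (17, 25), (17, 27), (17, 29), (17, 31), (18, 18), (18, 19), (18, 22), (18, 23)]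

theorem all : ∀ p ∈ cases, BddM p.1 p.2 := by
  intro p hp
  simp only [cases, List.mem_cons, List.not_mem_nil, or_false] at hp
  rcases hp with rfl | rfl | rfl | rfl | rfl | rfl | rfl | rfl | rfl | rfl | rfl | rfl | rfl | rfl | rfl | rfl | rfl | rfl | rfl | rfl | rfl | rfl | rfl | rfl | rfl | rfl | rfl | rfl | rfl | rfl | rfl | rfl | rfl | rfl | rfl | rfl | rfl | rfl | rfl | rfl | rfl | rfl | rfl | rfl | rfl | rfl | rfl | rfl | rfl | rfl
  · exact BCert.bdd c5_13_ok
  · exact BCert.bdd c5_15_ok
  · exact BCert.bdd c5_21_ok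
  · exact BCert.bdd c5_23_ok
  · exact BCert.bdd c5_29_ok
  · exact BCert.bdd c5_31_ok
  · exact BCert.bdd c6_6_ok
  · exact BCert.bdd c6_7_ok
  · exact BCert.bdd c6_14_ok
  · exact BCert.bdd c6_15_ok
  · exact BCert.bdd c6_22_ok
  · exact BCert.bdd c6_23_ok
  · exact BCert.bdd c6_30_ok
  · exact BCert.bdd c6_31_ok
  · exact BCert.bdd c9_9_ok
  · exact BCert.bdd c9_11_ok
  · exact BCert.bdd c9_13_ok
  · exact BCert.bdd c9_15_ok
  · exact BCert.bdd c9_25_ok
  · exact BCert.bdd c9_27_ok
  · exact BCert.bdd c9_29_ok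
  · exact BCert.bdd c9_31_ok
  · exact BCert.bdd c10_10_ok
  · exact BCert.bdd c10_11_ok
  · exact BCert.bdd c10_14_ok
  · exact BCert.bdd c10_15_ok
  · exact BCert.bdd c10_26_ok
  · exact BCert.bdd c10_27_ok
  · exact BCert.bdd c10_30_ok
  · exact BCert.bdd c10_31_ok
  · exact BCert.bdd c12_12_ok
  · exact BCert.bdd c12_13_ok
  · exact BCert.bdd c12_14_ok
  · exact BCert.bdd c12_15_ok
  · exact BCert.bdd c12_28_ok
  · exact BCert.bdd c12_29_ok
  · exact BCert.bdd c12_30_ok
  · exact BCert.bdd c12_31_ok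
  · exact BCert.bdd c17_17_ok
  · exact BCert.bdd c17_19_ok
  · exact BCert.bdd c17_21_ok
  · exact BCert.bdd c17_23_ok
  · exact BCert.bdd c17_25_ok
  · exact BCert.bdd c17_27_ok
  · exact BCert.bdd c17_29_ok
  · exact BCert.bdd c17_31_ok
  · exact BCert.bdd c18_18_ok
  · exact BCert.bdd c18_19_ok
  · exact BCert.bdd c18_22_ok
  · exact BCert.bdd c18_23_ok

end Pool.Agent.H299.RDE.B09
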