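import Pool.Agent.H299.RDE.Bdd

set_option linter.all false
set_option maxRecDepth 100000

namespace Pool.Agent.H299.RDE.B10

open Pool.Agent.H299.RDE

def z : Tree := .leaf []

def c1_3 : BCert := ⟨1, 3, 4, 3,
  .leaf [135169, 135170, 131077]⟩

def c1_5 : BCert := ⟨1, 5, 4, 3,
  .leaf [135169, 135170, 131077]⟩

def c1_7 : BCert := ⟨1, 7, 4, 3,
  .leaf [135169, 135170, 131077]⟩

def c1_9 : BCert := ⟨1, 9, 4, 3,
  .leaf [135169, 135170, 131077]⟩

def c1_11 : BCert := ⟨1, 11, 4, 3,
  .leaf [135169, 135170, 131077]⟩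

def c1_13 : BCert := ⟨1, 13, 4, 3,
  .leaf [135169, 135170, 131077]⟩

def c1_15 : BCert := ⟨1, 15, 4, 3,
  .leaf [135169, 135170, 131077]⟩

def c1_17 : BCert := ⟨1, 17, 4, 3,
  .leaf [135169, 135170, 131077]⟩

def c1_19 : BCert := ⟨1, 19, 4, 3,
  .leaf [135169, 135170, 131077]⟩

def c1_21 : BCert := ⟨1, 21, 4, 3,
  .leaf [135169, 135170, 131077]⟩

def c1_23 : BCert := ⟨1, 23, 4, 3,
  .leaf [135169, 135170, 131077]⟩

def c1_25 : BCert := ⟨1, 25, 4, 3,
  .leaf [135169, 135170, 131077]⟩

def c1_27 : BCert := ⟨1, 27, 4, 3,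
  .leaf [135169, 135170, 131077]⟩

def c1_29 : BCert := ⟨1, 29, 4, 3,
  .leaf [135169, 135170, 131077]⟩

def c1_31 : BCert := ⟨1, 31, 4, 3,
  .leaf [135169, 135170, 131077]⟩

def c2_2 : BCert := ⟨2, 2, 4, 3,
  .leaf [135177, 135178, 131077]⟩

def c2_3 : BCert := ⟨2, 3, 4, 3,
  .leaf [135177, 135178, 131077]⟩

def c2_5 : BCert := ⟨2, 5, 5, 5,
  .leaf [135177, 136201, 135170, 136210, 131077]⟩

def c2_6 : BCert := ⟨2, 6, 4, 3,
  .leaf [135177, 135178, 131077]⟩

def c2_7 : BCert := ⟨2, 7, 4, 3,
  .leaf [135177, 135178, 131077]⟩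

def c2_9 : BCert := ⟨2, 9, 6, 7,
  .leaf [135177, 136201, 137225, 135170, 136194, 137242, 131077]⟩

def c2_10 : BCert := ⟨2, 10, 4, 3,
  .leaf [135177, 135178, 131077]⟩

def c2_13 : BCert := ⟨2, 13, 5, 5,
  .leaf [135177, 136201, 135170, 136210, 131077]⟩

def c2_21 : BCert := ⟨2, 21, 5, 5,
  .leaf [135177, 136201, 135170, 136210, 131077]⟩

def c2_25 : BCert := ⟨2, 25, 6, 7,
  .leaf [135177, 136201, 137225, 135170, 136194, 137242, 131077]⟩

def c2_29 : BCert := ⟨2, 29, 5, 5,
  .leaf [135177, 136201, 135170, 136210, 131077]⟩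

def c4_17 : BCert := ⟨4, 17, 6, 5,
  .leaf [135185, 137233, 135170, 137250, 131077]⟩

def c4_19 : BCert := ⟨4, 19, 6, 5,
  .leaf [135185, 137233, 135170, 137250, 131077]⟩

def c4_25 : BCert := ⟨4, 25, 6, 5,
  .leaf [135185, 137233, 135170, 137250, 131077]⟩

def c4_27 : BCert := ⟨4, 27, 6, 5,
  .leaf [135185, 137233, 135170, 137250, 131077]⟩

def c18_26 : BCert := ⟨18, 26, 4, 3,
  .node false 4 z (.leaf [135177, 135178, 131077]) z z (.leaf [135201, 135202, 131077])⟩

def c18_27 : BCert := ⟨18, 27, 4, 3,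
  .node false 4 z (.leaf [135177, 135178, 131077]) z z (.leaf [135201, 135202, 131077])⟩

def c18_30 : BCert := ⟨18, 30, 4, 3,
  .node false 4 z (.leaf [135177, 135178, 131077]) z z (.leaf [135201, 135202, 131077])⟩

def c18_31 : BCert := ⟨18, 31, 4, 3,
  .node false 4 z (.leaf [135177, 135178, 131077]) z z (.leaf [135201, 135202, 131077])⟩

def c20_20 : BCert := ⟨20, 20, 4, 3,
  .node false 4 z z (.leaf [135185, 135186, 131077]) z (.leaf [135201, 135202, 131077])⟩

def c20_21 : BCert := ⟨20, 21, 4, 3,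
  .node false 4 z z (.leaf [135185, 135186, 131077]) z (.leaf [135201, 135202, 131077])⟩

def c20_22 : BCert := ⟨20, 22, 4, 3,
  .node false 4 z z (.leaf [135185, 135186, 131077]) z (.leaf [135201, 135202, 131077])⟩

def c20_23 : BCert := ⟨20, 23, 4, 3,
  .node false 4 z z (.leaf [135185, 135186, 131077]) z (.leaf [135201, 135202, 131077])⟩

def c20_28 : BCert := ⟨20, 28, 4, 3,
  .node false 4 z z (.leaf [135185, 135186, 131077]) z (.leaf [135201, 135202, 131077])⟩

def c20_29 : BCert := ⟨20, 29, 4, 3,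
  .node false 4 z z (.leaf [135185, 135186, 131077]) z (.leaf [135201, 135202, 131077])⟩

def c20_30 : BCert := ⟨20, 30, 4, 3,
  .node false 4 z z (.leaf [135185, 135186, 131077]) z (.leaf [135201, 135202, 131077])⟩

def c20_31 : BCert := ⟨20, 31, 4, 3,
  .node false 4 z z (.leaf [135185, 135186, 131077]) z (.leaf [135201, 135202, 131077])⟩

def c24_24 : BCert := ⟨24, 24, 4, 3,
  .node false 4 z z z (.leaf [135193, 135194, 131077]) (.leaf [135201, 135202, 131077])⟩

def c24_25 : BCert := ⟨24, 25, 4, 3,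
  .node false 4 z z z (.leaf [135193, 135194, 131077]) (.leaf [135201, 135202, 131077])⟩

def c24_26 : BCert := ⟨24, 26, 4, 3,
  .node false 4 z z z (.leaf [135193, 135194, 131077]) (.leaf [135201, 135202, 131077])⟩

def c24_27 : BCert := ⟨24, 27, 4, 3,
  .node false 4 z z z (.leaf [135193, 135194, 131077]) (.leaf [135201, 135202, 131077])⟩

def c24_28 : BCert := ⟨24, 28, 4, 3,
  .node false 4 z z z (.leaf [135193, 135194, 131077]) (.leaf [135201, 135202, 131077])⟩

def c24_29 : BCert := ⟨24, 29, 4, 3,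
  .node false 4 z z z (.leaf [135193, 135194, 131077]) (.leaf [135201, 135202, 131077])⟩

def c24_30 : BCert := ⟨24, 30, 4, 3,
  .node false 4 z z z (.leaf [135193, 135194, 131077]) (.leaf [135201, 135202, 131077])⟩

def c24_31 : BCert := ⟨24, 31, 4, 3,
  .node false 4 z z z (.leaf [135193, 135194, 131077]) (.leaf [135201, 135202, 131077])⟩

theorem c1_3_ok : c1_3.ok = true := by decide +kernel
theorem c1_5_ok : c1_5.ok = true := by decide +kernel
theorem c1_7_ok : c1_7.ok = true := by decide +kernel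
theorem c1_9_ok : c1_9.ok = true := by decide +kernel
theorem c1_11_ok : c1_11.ok = true := by decide +kernel
theorem c1_13_ok : c1_13.ok = true := by decide +kernel
theorem c1_15_ok : c1_15.ok = true := by decide +kernel
theorem c1_17_ok : c1_17.ok = true := by decide +kernel
theorem c1_19_ok : c1_19.ok = true := by decide +kernel
theorem c1_21_ok : c1_21.ok = true := by decide +kernel
theorem c1_23_ok : c1_23.ok = true := by decide +kernel
theorem c1_25_ok : c1_25.ok = true := by decide +kernel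
theorem c1_27_ok : c1_27.ok = true := by decide +kernel
theorem c1_29_ok : c1_29.ok = true := by decide +kernel
theorem c1_31_ok : c1_31.ok = true := by decide +kernel
theorem c2_2_ok : c2_2.ok = true := by decide +kernel
theorem c2_3_ok : c2_3.ok = true := by decide +kernel
theorem c2_5_ok : c2_5.ok = true := by decide +kernel
theorem c2_6_ok : c2_6.ok = true := by decide +kernel
theorem c2_7_ok : c2_7.ok = true := by decide +kernel
theorem c2_9_ok : c2_9.ok = true := by decide +kernel
theorem c2_10_ok : c2_10.ok = true := by decide +kernel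
theorem c2_13_ok : c2_13.ok = true := by decide +kernel
theorem c2_21_ok : c2_21.ok = true := by decide +kernel
theorem c2_25_ok : c2_25.ok = true := by decide +kernel
theorem c2_29_ok : c2_29.ok = true := by decide +kernel
theorem c4_17_ok : c4_17.ok = true := by decide +kernel
theorem c4_19_ok : c4_19.ok = true := by decide +kernel
theorem c4_25_ok : c4_25.ok = true := by decide +kernel
theorem c4_27_ok : c4_27.ok = true := by decide +kernel
theorem c18_26_ok : c18_26.ok = true := by decide +kernel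
theorem c18_27_ok : c18_27.ok = true := by decide +kernel
theorem c18_30_ok : c18_30.ok = true := by decide +kernel
theorem c18_31_ok : c18_31.ok = true := by decide +kernel
theorem c20_20_ok : c20_20.ok = true := by decide +kernel
theorem c20_21_ok : c20_21.ok = true := by decide +kernel
theorem c20_22_ok : c20_22.ok = true := by decide +kernel
theorem c20_23_ok : c20_23.ok = true := by decide +kernel
theorem c20_28_ok : c20_28.ok = true := by decide +kernel
theorem c20_29_ok : c20_29.ok = true := by decide +kernel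
theorem c20_30_ok : c20_30.ok = true := by decide +kernel
theorem c20_31_ok : c20_31.ok = true := by decide +kernel
theorem c24_24_ok : c24_24.ok = true := by decide +kernel
theorem c24_25_ok : c24_25.ok = true := by decide +kernel
theorem c24_26_ok : c24_26.ok = true := by decide +kernel
theorem c24_27_ok : c24_27.ok = true := by decide +kernel
theorem c24_28_ok : c24_28.ok = true := by decide +kernel
theorem c24_29_ok : c24_29.ok = true := by decide +kernel
theorem c24_30_ok : c24_30.ok = true := by decide +kernel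
theorem c24_31_ok : c24_31.ok = true := by decide +kernel

def cases : List (ℕ × ℕ) := [(1, 3), (1, 5), (1, 7), (1, 9), (1, 11), (1, 13), (1, 15), (1, 17), (1, 19), (1, 21), (1, 23), (1, 25), (1, 27), (1, 29), (1, 31), (2, 2), (2, 3), (2, 5), (2, 6), (2, 7), (2, 9), (2, 10), (2, 13), (2, 21), (2, 25), (2, 29), (4, 17), (4, 19), (4, 25), (4, 27), (18, 26), (18, 27), (18, 30), (18, 31), (20, 20), (20, 21), (20, 22), (20, 23), (20, 28), (20, 29), (20, 30), (20, 31), (24, 24), (24, 25), (24, 26), (24, 27), (24, 28), (24, 29), (24, 30), (24, 31)]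

theorem all : ∀ p ∈ cases, BddM p.1 p.2 := by
  intro p hp
  simp only [cases, List.mem_cons, List.not_mem_nil, or_false] at hp
  rcases hp with rfl | rfl | rfl | rfl | rfl | rfl | rfl | rfl | rfl | rfl | rfl | rfl | rfl | rfl | rfl | rfl | rfl | rfl | rfl | rfl | rfl | rfl | rfl | rfl | rfl | rfl | rfl | rfl | rfl | rfl | rfl | rfl | rfl | rfl | rfl | rfl | rfl | rfl | rfl | rfl | rfl | rfl | rfl | rfl | rfl | rfl | rfl | rfl | rfl | rfl
  · exact BCert.bdd c1_3_ok
  · exact BCert.bdd c1_5_ok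
  · exact BCert.bdd c1_7_ok
  · exact BCert.bdd c1_9_ok
  · exact BCert.bdd c1_11_ok
  · exact BCert.bdd c1_13_ok
  · exact BCert.bdd c1_15_ok
  · exact BCert.bdd c1_17_ok
  · exact BCert.bdd c1_19_ok
  · exact BCert.bdd c1_21_ok
  · exact BCert.bdd c1_23_ok
  · exact BCert.bdd c1_25_ok
  · exact BCert.bdd c1_27_ok
  · exact BCert.bdd c1_29_ok
  · exact BCert.bdd c1_31_ok
  · exact BCert.bdd c2_2_ok
  · exact BCert.bdd c2_3_ok
  · exact BCert.bdd c2_5_ok
  · exact BCert.bdd c2_6_ok
  · exact BCert.bdd c2_7_ok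
  · exact BCert.bdd c2_9_ok
  · exact BCert.bdd c2_10_ok
  · exact BCert.bdd c2_13_ok
  · exact BCert.bdd c2_21_ok
  · exact BCert.bdd c2_25_ok
  · exact BCert.bdd c2_29_ok
  · exact BCert.bdd c4_17_ok
  · exact BCert.bdd c4_19_ok
  · exact BCert.bdd c4_25_ok
  · exact BCert.bdd c4_27_ok
  · exact BCert.bdd c18_26_ok
  · exact BCert.bdd c18_27_ok
  · exact BCert.bdd c18_30_ok
  · exact BCert.bdd c18_31_ok
  · exact BCert.bdd c20_20_ok
  · exact BCert.bdd c20_21_ok
  · exact BCert.bdd c20_22_ok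
  · exact BCert.bdd c20_23_ok
  · exact BCert.bdd c20_28_ok
  · exact BCert.bdd c20_29_ok
  · exact BCert.bdd c20_30_ok
  · exact BCert.bdd c20_31_ok
  · exact BCert.bdd c24_24_ok
  · exact BCert.bdd c24_25_ok
  · exact BCert.bdd c24_26_ok
  · exact BCert.bdd c24_27_ok
  · exact BCert.bdd c24_28_ok
  · exact BCert.bdd c24_29_ok
  · exact BCert.bdd c24_30_ok
  · exact BCert.bdd c24_31_ok

end Pool.Agent.H299.RDE.B10
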