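import Pool.Agent.H299.RDE.Bdd

set_option linter.all false
set_option maxRecDepth 100000

namespace Pool.Agent.H299.RDE.B11

open Pool.Agent.H299.RDE

def z : Tree := .leaf []

def c2_11 : BCert := ⟨2, 11, 4, 3,
  .leaf [135177, 135178, 131077]⟩

def c2_14 : BCert := ⟨2, 14, 4, 3,
  .leaf [135177, 135178, 131077]⟩

def c2_15 : BCert := ⟨2, 15, 4, 3,
  .leaf [135177, 135178, 131077]⟩

def c2_18 : BCert := ⟨2, 18, 4, 3,
  .leaf [135177, 135178, 131077]⟩

def c2_19 : BCert := ⟨2, 19, 4, 3,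
  .leaf [135177, 135178, 131077]⟩

def c2_22 : BCert := ⟨2, 22, 4, 3,
  .leaf [135177, 135178, 131077]⟩

def c2_23 : BCert := ⟨2, 23, 4, 3,
  .leaf [135177, 135178, 131077]⟩

def c2_26 : BCert := ⟨2, 26, 4, 3,
  .leaf [135177, 135178, 131077]⟩

def c2_27 : BCert := ⟨2, 27, 4, 3,
  .leaf [135177, 135178, 131077]⟩

def c2_30 : BCert := ⟨2, 30, 4, 3,
  .leaf [135177, 135178, 131077]⟩

def c2_31 : BCert := ⟨2, 31, 4, 3,
  .leaf [135177, 135178, 131077]⟩

def c4_4 : BCert := ⟨4, 4, 4, 3,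
  .leaf [135185, 135186, 131077]⟩

def c4_5 : BCert := ⟨4, 5, 4, 3,
  .leaf [135185, 135186, 131077]⟩

def c4_6 : BCert := ⟨4, 6, 4, 3,
  .leaf [135185, 135186, 131077]⟩

def c4_7 : BCert := ⟨4, 7, 4, 3,
  .leaf [135185, 135186, 131077]⟩

def c4_12 : BCert := ⟨4, 12, 4, 3,
  .leaf [135185, 135186, 131077]⟩

def c4_13 : BCert := ⟨4, 13, 4, 3,
  .leaf [135185, 135186, 131077]⟩

def c4_14 : BCert := ⟨4, 14, 4, 3,
  .leaf [135185, 135186, 131077]⟩

def c4_15 : BCert := ⟨4, 15, 4, 3,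
  .leaf [135185, 135186, 131077]⟩

def c4_20 : BCert := ⟨4, 20, 4, 3,
  .leaf [135185, 135186, 131077]⟩

def c4_21 : BCert := ⟨4, 21, 4, 3,
  .leaf [135185, 135186, 131077]⟩

def c4_22 : BCert := ⟨4, 22, 4, 3,
  .leaf [135185, 135186, 131077]⟩

def c4_23 : BCert := ⟨4, 23, 4, 3,
  .leaf [135185, 135186, 131077]⟩

def c4_28 : BCert := ⟨4, 28, 4, 3,
  .leaf [135185, 135186, 131077]⟩

def c4_29 : BCert := ⟨4, 29, 4, 3,
  .leaf [135185, 135186, 131077]⟩

def c4_30 : BCert := ⟨4, 30, 4, 3,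
  .leaf [135185, 135186, 131077]⟩

def c4_31 : BCert := ⟨4, 31, 4, 3,
  .leaf [135185, 135186, 131077]⟩

def c8_8 : BCert := ⟨8, 8, 4, 3,
  .leaf [135193, 135194, 131077]⟩

def c8_9 : BCert := ⟨8, 9, 4, 3,
  .leaf [135193, 135194, 131077]⟩

def c8_10 : BCert := ⟨8, 10, 4, 3,
  .leaf [135193, 135194, 131077]⟩

def c8_11 : BCert := ⟨8, 11, 4, 3,
  .leaf [135193, 135194, 131077]⟩

def c8_12 : BCert := ⟨8, 12, 4, 3,
  .leaf [135193, 135194, 131077]⟩

def c8_13 : BCert := ⟨8, 13, 4, 3,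
  .leaf [135193, 135194, 131077]⟩

def c8_14 : BCert := ⟨8, 14, 4, 3,
  .leaf [135193, 135194, 131077]⟩

def c8_15 : BCert := ⟨8, 15, 4, 3,
  .leaf [135193, 135194, 131077]⟩

def c8_24 : BCert := ⟨8, 24, 4, 3,
  .leaf [135193, 135194, 131077]⟩

def c8_25 : BCert := ⟨8, 25, 4, 3,
  .leaf [135193, 135194, 131077]⟩

def c8_26 : BCert := ⟨8, 26, 4, 3,
  .leaf [135193, 135194, 131077]⟩

def c8_27 : BCert := ⟨8, 27, 4, 3,
  .leaf [135193, 135194, 131077]⟩

def c8_28 : BCert := ⟨8, 28, 4, 3,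
  .leaf [135193, 135194, 131077]⟩

def c8_29 : BCert := ⟨8, 29, 4, 3,
  .leaf [135193, 135194, 131077]⟩

def c8_30 : BCert := ⟨8, 30, 4, 3,
  .leaf [135193, 135194, 131077]⟩

def c8_31 : BCert := ⟨8, 31, 4, 3,
  .leaf [135193, 135194, 131077]⟩

def c16_16 : BCert := ⟨16, 16, 4, 3,
  .leaf [135201, 135202, 131077]⟩

def c16_17 : BCert := ⟨16, 17, 4, 3,
  .leaf [135201, 135202, 131077]⟩

def c16_18 : BCert := ⟨16, 18, 4, 3,
  .leaf [135201, 135202, 131077]⟩

def c16_19 : BCert := ⟨16, 19, 4, 3,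
  .leaf [135201, 135202, 131077]⟩

def c16_20 : BCert := ⟨16, 20, 4, 3,
  .leaf [135201, 135202, 131077]⟩

def c16_21 : BCert := ⟨16, 21, 4, 3,
  .leaf [135201, 135202, 131077]⟩

def c16_22 : BCert := ⟨16, 22, 4, 3,
  .leaf [135201, 135202, 131077]⟩

theorem c2_11_ok : c2_11.ok = true := by decide +kernel
theorem c2_14_ok : c2_14.ok = true := by decide +kernel
theorem c2_15_ok : c2_15.ok = true := by decide +kernel
theorem c2_18_ok : c2_18.ok = true := by decide +kernel
theorem c2_19_ok : c2_19.ok = true := by decide +kernel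
theorem c2_22_ok : c2_22.ok = true := by decide +kernel
theorem c2_23_ok : c2_23.ok = true := by decide +kernel
theorem c2_26_ok : c2_26.ok = true := by decide +kernel
theorem c2_27_ok : c2_27.ok = true := by decide +kernel
theorem c2_30_ok : c2_30.ok = true := by decide +kernel
theorem c2_31_ok : c2_31.ok = true := by decide +kernel
theorem c4_4_ok : c4_4.ok = true := by decide +kernel
theorem c4_5_ok : c4_5.ok = true := by decide +kernel
theorem c4_6_ok : c4_6.ok = true := by decide +kernel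
theorem c4_7_ok : c4_7.ok = true := by decide +kernel
theorem c4_12_ok : c4_12.ok = true := by decide +kernel
theorem c4_13_ok : c4_13.ok = true := by decide +kernel
theorem c4_14_ok : c4_14.ok = true := by decide +kernel
theorem c4_15_ok : c4_15.ok = true := by decide +kernel
theorem c4_20_ok : c4_20.ok = true := by decide +kernel
theorem c4_21_ok : c4_21.ok = true := by decide +kernel
theorem c4_22_ok : c4_22.ok = true := by decide +kernel
theorem c4_23_ok : c4_23.ok = true := by decide +kernel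
theorem c4_28_ok : c4_28.ok = true := by decide +kernel
theorem c4_29_ok : c4_29.ok = true := by decide +kernel
theorem c4_30_ok : c4_30.ok = true := by decide +kernel
theorem c4_31_ok : c4_31.ok = true := by decide +kernel
theorem c8_8_ok : c8_8.ok = true := by decide +kernel
theorem c8_9_ok : c8_9.ok = true := by decide +kernel
theorem c8_10_ok : c8_10.ok = true := by decide +kernel
theorem c8_11_ok : c8_11.ok = true := by decide +kernel
theorem c8_12_ok : c8_12.ok = true := by decide +kernel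
theorem c8_13_ok : c8_13.ok = true := by decide +kernel
theorem c8_14_ok : c8_14.ok = true := by decide +kernel
theorem c8_15_ok : c8_15.ok = true := by decide +kernel
theorem c8_24_ok : c8_24.ok = true := by decide +kernel
theorem c8_25_ok : c8_25.ok = true := by decide +kernel
theorem c8_26_ok : c8_26.ok = true := by decide +kernel
theorem c8_27_ok : c8_27.ok = true := by decide +kernel
theorem c8_28_ok : c8_28.ok = true := by decide +kernel
theorem c8_29_ok : c8_29.ok = true := by decide +kernel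
theorem c8_30_ok : c8_30.ok = true := by decide +kernel
theorem c8_31_ok : c8_31.ok = true := by decide +kernel
theorem c16_16_ok : c16_16.ok = true := by decide +kernel
theorem c16_17_ok : c16_17.ok = true := by decide +kernel
theorem c16_18_ok : c16_18.ok = true := by decide +kernel
theorem c16_19_ok : c16_19.ok = true := by decide +kernel
theorem c16_20_ok : c16_20.ok = true := by decide +kernel
theorem c16_21_ok : c16_21.ok = true := by decide +kernel
theorem c16_22_ok : c16_22.ok = true := by decide +kernel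

def cases : List (ℕ × ℕ) := [(2, 11), (2, 14), (2, 15), (2, 18), (2, 19), (2, 22), (2, 23), (2, 26), (2, 27), (2, 30), (2, 31), (4, 4), (4, 5), (4, 6), (4, 7), (4, 12), (4, 13), (4, 14), (4, 15), (4, 20), (4, 21), (4, 22), (4, 23), (4, 28), (4, 29), (4, 30), (4, 31), (8, 8), (8, 9), (8, 10), (8, 11), (8, 12), (8, 13), (8, 14), (8, 15), (8, 24), (8, 25), (8, 26), (8, 27), (8, 28), (8, 29), (8, 30), (8, 31), (16, 16), (16, 17), (16, 18), (16, 19), (16, 20), (16, 21), (16, 22)]

theorem all : ∀ p ∈ cases, BddM p.1 p.2 := by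
  intro p hp
  simp only [cases, List.mem_cons, List.not_mem_nil, or_false] at hp
  rcases hp with rfl | rfl | rfl | rfl | rfl | rfl | rfl | rfl | rfl | rfl | rfl | rfl | rfl | rfl | rfl | rfl | rfl | rfl | rfl | rfl | rfl | rfl | rfl | rfl | rfl | rfl | rfl | rfl | rfl | rfl | rfl | rfl | rfl | rfl | rfl | rfl | rfl | rfl | rfl | rfl | rfl | rfl | rfl | rfl | rfl | rfl | rfl | rfl | rfl | rfl
  · exact BCert.bdd c2_11_ok
  · exact BCert.bdd c2_14_ok
  · exact BCert.bdd c2_15_ok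
  · exact BCert.bdd c2_18_ok
  · exact BCert.bdd c2_19_ok
  · exact BCert.bdd c2_22_ok
  · exact BCert.bdd c2_23_ok
  · exact BCert.bdd c2_26_ok
  · exact BCert.bdd c2_27_ok
  · exact BCert.bdd c2_30_ok
  · exact BCert.bdd c2_31_ok
  · exact BCert.bdd c4_4_ok
  · exact BCert.bdd c4_5_ok
  · exact BCert.bdd c4_6_ok
  · exact BCert.bdd c4_7_ok
  · exact BCert.bdd c4_12_ok
  · exact BCert.bdd c4_13_ok
  · exact BCert.bdd c4_14_ok
  · exact BCert.bdd c4_15_ok
  · exact BCert.bdd c4_20_ok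
  · exact BCert.bdd c4_21_ok
  · exact BCert.bdd c4_22_ok
  · exact BCert.bdd c4_23_ok
  · exact BCert.bdd c4_28_ok
  · exact BCert.bdd c4_29_ok
  · exact BCert.bdd c4_30_ok
  · exact BCert.bdd c4_31_ok
  · exact BCert.bdd c8_8_ok
  · exact BCert.bdd c8_9_ok
  · exact BCert.bdd c8_10_ok
  · exact BCert.bdd c8_11_ok
  · exact BCert.bdd c8_12_ok
  · exact BCert.bdd c8_13_ok
  · exact BCert.bdd c8_14_ok
  · exact BCert.bdd c8_15_ok
  · exact BCert.bdd c8_24_ok
  · exact BCert.bdd c8_25_ok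
  · exact BCert.bdd c8_26_ok
  · exact BCert.bdd c8_27_ok
  · exact BCert.bdd c8_28_ok
  · exact BCert.bdd c8_29_ok
  · exact BCert.bdd c8_30_ok
  · exact BCert.bdd c8_31_ok
  · exact BCert.bdd c16_16_ok
  · exact BCert.bdd c16_17_ok
  · exact BCert.bdd c16_18_ok
  · exact BCert.bdd c16_19_ok
  · exact BCert.bdd c16_20_ok
  · exact BCert.bdd c16_21_ok
  · exact BCert.bdd c16_22_ok

end Pool.Agent.H299.RDE.B11
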