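import Pool.Agent.H299.RDE.Bdd

set_option linter.all false
set_option maxRecDepth 100000

namespace Pool.Agent.H299.RDE.B12

open Pool.Agent.H299.RDE

def z : Tree := .leaf []

def c16_23 : BCert := ⟨16, 23, 4, 3,
  .leaf [135201, 135202, 131077]⟩

def c16_24 : BCert := ⟨16, 24, 4, 3,
  .leaf [135201, 135202, 131077]⟩

def c16_25 : BCert := ⟨16, 25, 4, 3,
  .leaf [135201, 135202, 131077]⟩

def c16_26 : BCert := ⟨16, 26, 4, 3,
  .leaf [135201, 135202, 131077]⟩

def c16_27 : BCert := ⟨16, 27, 4, 3,
  .leaf [135201, 135202, 131077]⟩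

def c16_28 : BCert := ⟨16, 28, 4, 3,
  .leaf [135201, 135202, 131077]⟩

def c16_29 : BCert := ⟨16, 29, 4, 3,
  .leaf [135201, 135202, 131077]⟩

def c16_30 : BCert := ⟨16, 30, 4, 3,
  .leaf [135201, 135202, 131077]⟩

def c16_31 : BCert := ⟨16, 31, 4, 3,
  .leaf [135201, 135202, 131077]⟩

theorem c16_23_ok : c16_23.ok = true := by decide +kernel
theorem c16_24_ok : c16_24.ok = true := by decide +kernel
theorem c16_25_ok : c16_25.ok = true := by decide +kernel
theorem c16_26_ok : c16_26.ok = true := by decide +kernel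
theorem c16_27_ok : c16_27.ok = true := by decide +kernel
theorem c16_28_ok : c16_28.ok = true := by decide +kernel
theorem c16_29_ok : c16_29.ok = true := by decide +kernel
theorem c16_30_ok : c16_30.ok = true := by decide +kernel
theorem c16_31_ok : c16_31.ok = true := by decide +kernel

def cases : List (ℕ × ℕ) := [(16, 23), (16, 24), (16, 25), (16, 26), (16, 27), (16, 28), (16, 29), (16, 30), (16, 31)]

theorem all : ∀ p ∈ cases, BddM p.1 p.2 := by
  intro p hp
  simp only [cases, List.mem_cons, List.not_mem_nil, or_false] at hp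
  rcases hp with rfl | rfl | rfl | rfl | rfl | rfl | rfl | rfl | rfl
  · exact BCert.bdd c16_23_ok
  · exact BCert.bdd c16_24_ok
  · exact BCert.bdd c16_25_ok
  · exact BCert.bdd c16_26_ok
  · exact BCert.bdd c16_27_ok
  · exact BCert.bdd c16_28_ok
  · exact BCert.bdd c16_29_ok
  · exact BCert.bdd c16_30_ok
  · exact BCert.bdd c16_31_ok

end Pool.Agent.H299.RDE.B12
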